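import Pool.Agent.MP_57341d_ag.H73.Defs

/-! Mumford-Tate groups, tensor constructions on the first cohomology, and period matrices. -/

open Matrix MvPolynomial GPC73

namespace GPCM

section

variable {m : Type} [Fintype m] [DecidableEq m]

/-- The entries of an invertible matrix. -/
def ent (x : GL m ℂ) (q : m × m) : ℂ := x q.1 q.2

/-- The complex points of the smallest algebraic subgroup of `GL m` over `ℚ` that contains all
`h z`, `z ≠ 0`. -/
def MT (h : ℂ → Matrix m m ℝ) : Subgroup (GL m ℂ) :=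
  sInf {G | (∃ I : Ideal (MvPolynomial (m × m) ℚ), ∀ x, x ∈ G ↔ ent x ∈ zeroLocus ℂ I) ∧
    ∀ z ≠ 0, ∀ x : GL m ℂ, x.1 = (h z).map Complex.ofReal → x ∈ G}

/-- The dimension of an algebraic group over `ℚ`. -/
noncomputable def gdim (G : Subgroup (GL m ℂ)) : WithBot ℕ∞ :=
  ringKrullDim (MvPolynomial (m × m) ℚ ⧸ vanishingIdeal ℚ (ent '' G))

end

/-- The matrix that is `c ^ k i` times the `r i`-th tensor power of `X` on the `i`-th summand. -/
noncomputable def tc {n K : Type} [Field K] {s : ℕ} (r : Fin s → ℕ) (k : Fin s → ℤ) (c : K)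
    (X : Matrix n n K) : Matrix (Σ i, Fin (r i) → n) (Σ i, Fin (r i) → n) K :=
  blockDiagonal' fun i => of fun x y => c ^ k i * ∏ a, X (x a) (y a)

variable {g N s m : ℕ}

/-- The action of the Deligne torus on the first cohomology. -/
noncomputable def hz (A : AbVar g N) (z : ℂ) : Matrix (Fin (2 * g)) (Fin (2 * g)) ℝ :=
  of fun j k => A.ω.repr (z • A.ω j) k

/-- A rational Hodge substructure of `⨁ i, H ^ {⊗ r i} (k i)`, `H = H¹(A, ℚ)`; the columns of `B`
are a basis, `h z` is the matrix of the action of `z`. -/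
structure Mot (A : AbVar g N) (s m : ℕ) where
  r : Fin s → ℕ
  k : Fin s → ℤ
  B : Matrix (Σ i, Fin (r i) → Fin (2 * g)) (Fin m) ℚ
  h : ℂ → Matrix (Fin m) (Fin m) ℝ
  inj : Function.Injective B.mulVec
  act : ∀ z ≠ 0, tc r k (Complex.normSq z)⁻¹ (hz A z) * B.map (Rat.cast : ℚ → ℝ) =
    B.map (Rat.cast : ℚ → ℝ) * h z

/-- The field generated by the entries of the period matrices `C`: the columns of `B * C` are a
basis made of de Rham classes over the algebraic numbers. -/
noncomputable def Mot.per {A : AbVar g N} (M : Mot A s m) : IntermediateField ℚ ℂ :=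
  IntermediateField.adjoin ℚ {c | ∃ (P : Matrix (Fin (2 * g)) (Fin (2 * g)) ℂ)
    (C : Matrix (Fin m) (Fin m) ℂ) (D : Matrix (Σ i, Fin (M.r i) → Fin (2 * g)) (Fin m) Qb),
      P.det ≠ 0 ∧ (∀ i, Pᵀ i ∈ A.dR) ∧ C.det ≠ 0 ∧ M.B.map (Rat.cast : ℚ → ℂ) * C =
        tc M.r M.k (2 * Real.pi * Complex.I)⁻¹ P * D.map (Subtype.val : Qb → ℂ) ∧
          ∃ i j, c = C i j}

end GPCM
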