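import Pool.Agent.MP_57341d_ag.HT.Ten
import Pool.Agent.MP_57341d_ag.HM.Defs

attribute [-instance] instCoeHTCTOfCoeTailOfCoeHTC IntermediateField.module'
  IsPurelyInseparable.isIntegral SubmoduleClass.module NonUnitalNormedRing.toNormedAddCommGroup
  LieAdmissibleAlgebra.toModule ContinuousSemilinearMapClass.toSemilinearMapClass
  RightPreLieAlgebra.toModule LeftPreLieAlgebra.toModule MonTypeEquivalenceMon.monMonoid
  Matrix.UnitaryGroup.coeMatrix instCoeOutOfCoeFun RCLike.charZero_rclike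
  CoalgHomClass.toSemilinearMapClass Module.IsNoetherian.finite
  instNonUnitalAlgHomClassOfNonUnitalAlgEquivClass CommMonTypeEquivalenceCommMon.commMonCommMonoid
  Matrix.SpecialLinearGroup.hasCoeToMatrix SetLike.GradeZero.instCommRing
  GrpTypeEquivalenceGrp.grpGroup NonUnitalAlgHomClass.toNonUnitalRingHomClass
  BialgEquivClass.toBialgHomClass TestFunctionClass.toDFunLike IdemSemiring.toSemiring
  Nontrivial.to_nonempty SetLike.GradeZero.instRing ContDiffMapSupportedInClass.toDFunLike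
  SubalgebraClass.toAlgebra SemilinearIsometryClass.toSemilinearMapClass
  ESeminormedAddCommMonoid.toAddCommMonoid Complex.instAlgebraOfReal bot_nonempty instCoeTOfCoeDep
  IsometryClass.instCoeOutIsometryEquiv FunLike.toDecidableEq
  NonUnitalAlgHomClass.instSemilinearMapClassOfNonUnitalAlgSemiHomClassToMonoidHomRingHom
  OrderBot.instIsCodirectedOrder instCharZeroOfIsSemireal
  CompletelyPositiveMapClass.instCoeToCompletelyPositiveMap MulSemiringAction.toDistribMulAction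
  RingHomClass.toLinearMapClassRat StarRingEquivClass.instCoeHead ESeminormedAddMonoid.toAddMonoid
  CoalgEquivClass.instCoeToCoalgEquiv
  ContinuousAddMonoidHom.instCoeOutOfAddMonoidHomClassOfContinuousMapClass
  BialgEquivClass.instCoeToBialgEquiv StarAlgEquivClass.instCoeHead BialgHomClass.instCoeToBialgHom
  littleWedderburn HomeomorphClass.instCoeOutHomeomorph NonUnitalNonAssocRing.toAddCommGroup
  CoalgHomClass.instCoeToCoalgHom SemilinearMapClass.instCoeToSemilinearMap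
  LinearMapClass.instCoeToLinearMap ValuationClass.toMonoidWithZeroHomClass
  BialgHomClass.toAlgHomClass AlgHomClass.linearMapClass Unique.instSubsingleton
  NonUnitalCStarAlgebra.toNormedSpace NonUnitalStarRingHomClass.instCoeHeadNonUnitalStarRingHom
  Algebra.WeaklyEtale.flat LieAdmissibleRing.toNonUnitalNonAssocRing
  MulSemiringActionSemiHomClass.toDistribMulActionSemiHomClass One.instNonempty
  MulRingSeminormClass.toMonoidWithZeroHomClass Zero.instNonempty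
  FiniteGaloisIntermediateField.instCoeIntermediateField instCoeHTCT CommGroup.toGroup
  RingConeClass.toSubsemiringClass MulCharClass.toMonoidHomClass LieAlgebra.toModule
  RCLike.innerProductSpace instCoeHTC instCoeTC BialgHomClass.toMonoidHomClass instIsCodirectedOrder
  CentroidHomClass.toAddMonoidHomClass ProperSMul.toContinuousSMul NeZero.of_gt'
  MulDistribMulActionSemiHomClass.toMonoidHomClass IsPurelyInseparable.normal
  SemilatticeInf.toPartialOrder

/-! The dimension of the Mumford-Tate group and the field of periods of a motive of CM type. -/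

open Matrix Module MvPolynomial GPC73 GPC42 GPC72 GPC96 Complex NumberField ComplexEmbedding

namespace GPCM

variable {E : Type} [Field E] [NumberField E] {n m Ω κ ι σ : Type} [Fintype n] [DecidableEq n]
  [Fintype m] [DecidableEq m] [Fintype Ω] [DecidableEq Ω] [Fintype κ] {g N s d : ℕ}

/-! ### Block TC -/

omit [DecidableEq n] in
theorem tc_mul {K : Type} [Field K] (r : Fin s → ℕ) (k : Fin s → ℤ) (c c' : K)
    (X X' : Matrix n n K) : tc r k c X * tc r k c' X' = tc r k (c * c') (X * X') := by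
  rw [tc, tc, tc, ← blockDiagonal'_mul]
  congr 1
  funext i
  ext x y
  simp only [mul_apply, of_apply]
  rw [Finset.prod_univ_sum, Fintype.piFinset_univ, Finset.mul_sum]
  exact Finset.sum_congr rfl fun j _ => by rw [Finset.prod_mul_distrib, mul_zpow]; ring

omit [Fintype n] in
theorem tc_diag {K : Type} [Field K] (r : Fin s → ℕ) (k : Fin s → ℤ) (c : K) (q : n → K) :
    tc r k c (diagonal q) = diagonal fun w => c ^ k w.1 * ∏ a, q (w.2 a) := by
  rw [tc, ← blockDiagonal'_diagonal fun i (x : Fin (r i) → n) => c ^ k i * ∏ a, q (x a)]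
  congr 1
  funext i
  ext x y
  rw [of_apply]
  by_cases h : x = y
  · subst h; simp only [diagonal_apply_eq]
  · obtain ⟨a, ha⟩ := Function.ne_iff.1 h
    rw [diagonal_apply_ne _ h,
      Finset.prod_eq_zero (Finset.mem_univ a) (diagonal_apply_ne q ha), mul_zero]

omit [Fintype n] in
theorem tc_one {K : Type} [Field K] (r : Fin s → ℕ) (k : Fin s → ℤ) :
    tc r k (1 : K) (1 : Matrix n n K) = 1 := by
  rw [← diagonal_one, tc_diag]
  simp

omit [Fintype n] [DecidableEq n] in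
theorem tc_map {K K' : Type} [Field K] [Field K'] (f : K →+* K') (r : Fin s → ℕ) (k : Fin s → ℤ)
    (c : K) (X : Matrix n n K) : (tc r k c X).map f = tc r k (f c) (X.map f) := by
  rw [tc, tc, blockDiagonal'_map _ _ (map_zero f)]
  congr 1
  funext i
  ext x y
  simp only [map_apply, of_apply, map_mul, map_zpow₀, map_prod]

omit [Fintype n] [DecidableEq n] in
theorem tc_al (r : Fin s → ℕ) (k : Fin s → ℤ) {X : Matrix n n ℂ} (h : Al X) :
    Al (tc r k 1 X) := fun ⟨i, x⟩ ⟨j, y⟩ => by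
  by_cases e : i = j
  · subst e
    rw [tc, blockDiagonal'_apply_eq, of_apply, _root_.one_zpow, one_mul,
      ← mem_algebraicClosure_iff]
    exact prod_mem fun a _ => mem_algebraicClosure_iff.2 (h _ _)
  · rw [tc, blockDiagonal'_apply_ne _ _ _ e]
    exact isAlgebraic_zero

theorem hz_eq (A : AbVar g N) (z : ℂ) : hz A z = z.re • 1 + z.im • A.J := by
  ext j k
  have e : z • A.ω j = z.re • A.ω j + z.im • ∑ l, A.J j l • A.ω l := by
    rw [← J_spec, ← Complex.coe_smul, ← Complex.coe_smul, smul_smul, ← add_smul, re_add_im]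
  simp only [hz, of_apply, e, map_add, map_smul, Basis.repr_self, Finsupp.smul_single, smul_eq_mul, mul_one, map_sum, Finsupp.coe_add, Finsupp.coe_smul, Finsupp.coe_finsetSum, Pi.add_apply, Finsupp.single_apply, Pi.smul_apply, Finset.sum_apply, Finset.sum_ite_eq', Finset.mem_univ, ↓ reduceIte, Matrix.add_apply, Matrix.smul_apply, one_apply, mul_ite, mul_zero]

/-- On the unit circle `x⁻¹ = conj x`. -/
theorem hz_V (A : AbVar g N) {V : Matrix (Fin (2 * g)) (Fin (2 * g)) ℂ} {e : Fin (2 * g) → ℤ}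
    (he : ∀ k, e k = 1 ∨ e k = -1)
    (hV : A.J.map ofReal * V = V * diagonal fun k => I * (e k : ℂ)) (t : ℝ) {x : ℂ}
    (hx : ‖x‖ = 1) : (hz A (t ^ 2 * x)).map ofReal * V =
      V * diagonal fun k => (t : ℂ) ^ 2 * x ^ e k := by
  have e1 : (hz A (t ^ 2 * x)).map ofReal =
      ((t : ℂ) ^ 2 * x.re) • 1 + ((t : ℂ) ^ 2 * x.im) • A.J.map ofReal := by
    rw [hz_eq, ← ofReal_pow, re_ofReal_mul, im_ofReal_mul]
    ext i j
    by_cases h : i = j <;> simp [h]
  rw [e1, Matrix.add_mul, Matrix.smul_mul, Matrix.smul_mul, hV, Matrix.one_mul]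
  ext i j
  simp only [Matrix.add_apply, Matrix.smul_apply, mul_diagonal, smul_eq_mul]
  rcases he j with h | h <;> rw [h]
  · rw [zpow_one]
    push_cast
    linear_combination (V i j * t ^ 2) * re_add_im x
  · rw [_root_.zpow_neg_one, inv_eq_conj hx]
    push_cast
    have := re_add_im (starRingEnd ℂ x)
    rw [conj_re, conj_im, ofReal_neg] at this
    linear_combination (V i j * t ^ 2) * this

/-- A rational left inverse. -/
theorem exists_left {B : Matrix Ω m ℚ} (h : Function.Injective B.mulVec) :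
    ∃ B' : Matrix m Ω ℚ, B' * B = 1 := by
  obtain ⟨l, hl⟩ := (toLin' B).exists_leftInverse_of_injective (LinearMap.ker_eq_bot.2 h)
  exact ⟨LinearMap.toMatrix' l, by
    rw [← LinearMap.toMatrix'_toLin' B, ← LinearMap.toMatrix'_comp, hl, LinearMap.toMatrix'_id]⟩

/-! ### Block CH -/

omit [DecidableEq Ω] in
/-- Group the sum by the value of `c`. -/
theorem li_sum {V : Type} {χ : V → ι → ℂ} (h : LinearIndependent ℂ χ) {a : Ω → ℂ} {c : Ω → V}
    (h0 : ∀ i, ∑ w, a w * χ (c w) i = 0) (G : V → ℂ) : ∑ w, a w * G (c w) = 0 := by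
  have h1 := linearIndependent_iff.1 h (∑ w, Finsupp.single (c w) (a w))
    (funext fun i => by simpa only [map_sum, Finsupp.linearCombination_single, Finset.sum_apply, Pi.smul_apply, smul_eq_mul, Pi.zero_apply] using h0 i)
  simpa only [map_sum, Finsupp.linearCombination_single, smul_eq_mul, map_zero] using congrArg (Finsupp.linearCombination ℂ G) h1

/-- `linearIndependent_monoidHom` for `Circle`. -/
theorem ch_circ : LinearIndependent ℂ fun (v : ℤ) (x : {x : ℂ // ‖x‖ = 1}) => x.1 ^ v := by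
  let S : Submonoid ℂ := ⟨⟨{x | ‖x‖ = 1}, fun {a b} (ha : ‖a‖ = 1) (hb : ‖b‖ = 1) =>
    show ‖a * b‖ = 1 by rw [_root_.norm_mul, ha, hb, one_mul]⟩, show ‖(1 : ℂ)‖ = 1 from norm_one⟩
  let f : ℤ → S →* ℂ := fun v => ⟨⟨fun x => x.1 ^ v, one_zpow v⟩, fun a b => mul_zpow a.1 b.1 v⟩
  refine (linearIndependent_monoidHom S ℂ).comp f fun v w h => ?_
  by_contra hne
  have hd : ((v - w : ℤ) : ℂ) ≠ 0 := Int.cast_ne_zero.2 (sub_ne_zero.2 hne)
  have h1 : cexp ((Real.pi / (v - w : ℤ) : ℝ) * I) ^ v = cexp ((Real.pi / (v - w : ℤ) : ℝ) * I) ^ w :=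
    DFunLike.congr_fun h ⟨_, norm_exp_ofReal_mul_I _⟩
  rw [← div_eq_one_iff_eq (zpow_ne_zero _ (exp_ne_zero _)), ← zpow_sub₀ (exp_ne_zero _),
    ← exp_int_mul, ofReal_div, ofReal_intCast, ← mul_assoc, mul_div_cancel₀ _ hd,
    exp_pi_mul_I] at h1
  norm_num at h1

theorem ch_circ' : LinearIndependent Qb fun (v : Unit → ℤ) (x : {x : ℂ // ‖x‖ = 1}) =>
    mon (fun _ => x.1) v := by
  have := (ch_circ.comp (fun v : Unit → ℤ => v ()) fun v w h => funext fun _ => h).restrict_scalars'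
    Qb
  simpa only [mon, Finset.univ_unique, PUnit.default_eq_unit, Finset.prod_singleton, Function.comp_def] using this

/-- The point of the torus attached to `(c, a)`. -/
def pt (p : ℚˣ × Eˣ) (o : Option (E →+* ℂ)) : ℂ := o.elim ((p.1 : ℚ) : ℂ) fun ψ => ψ p.2

omit [NumberField E] in
theorem pt_ne (p : ℚˣ × Eˣ) (o : Option (E →+* ℂ)) : pt p o ≠ 0 := by
  cases o <;> simp [pt]

omit [DecidableEq n] [Fintype n] in
theorem ch_der (t : Finset n) (b : n → ℂ) (k : n → ℕ) :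
    (∏ i ∈ t, (1 + Polynomial.C (b i) * Polynomial.X) ^ k i).derivative.eval 0 =
      ∑ i ∈ t, k i * b i := by
  classical
  induction t using Finset.induction_on with
  | empty => simp
  | insert a t ha ih =>
    rw [Finset.prod_insert ha, Finset.sum_insert ha, Polynomial.derivative_mul,
      Polynomial.eval_add, Polynomial.eval_mul, Polynomial.eval_mul, ih]
    simp only [Polynomial.derivative_pow, map_natCast, Polynomial.derivative_add, Polynomial.derivative_one, Polynomial.derivative_mul, Polynomial.derivative_C, zero_mul, Polynomial.derivative_X, mul_one, zero_add, Polynomial.eval_mul, Polynomial.eval_natCast, Polynomial.eval_pow, Polynomial.eval_add, Polynomial.eval_one, Polynomial.eval_C, Polynomial.eval_X, mul_zero, add_zero, one_pow, Polynomial.eval_prod, Finset.prod_const_one, one_mul]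

theorem ch_emb {u : (E →+* ℂ) → ℤ} (h : ∀ a : E, a ≠ 0 → ∏ ψ : E →+* ℂ, ψ a ^ u ψ = 1) :
    u = 0 := by
  have h1 : ∀ θ : E, ∑ ψ : E →+* ℂ, (u ψ : ℂ) * ψ θ = 0 := by
    intro θ
    have hf : {t : ℕ | 1 + θ * t = 0}.Subsingleton := fun t (ht : _ = _) t' (ht' : _ = _) => by
      have h0 : θ ≠ 0 := by rintro rfl; simp at ht
      exact Nat.cast_injective (R := E) (mul_left_cancel₀ h0 (add_left_cancel (ht.trans ht'.symm)))
    have hp := Polynomial.eq_of_infinite_eval_eq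
      (∏ ψ : E →+* ℂ, (1 + Polynomial.C (ψ θ) * Polynomial.X) ^ (u ψ).toNat)
      (∏ ψ : E →+* ℂ, (1 + Polynomial.C (ψ θ) * Polynomial.X) ^ (-u ψ).toNat)
      ((hf.finite.infinite_compl.image (Nat.cast_injective (R := ℂ)).injOn).mono (by
        rintro _ ⟨t, ht, rfl⟩
        have e : ∀ ψ : E →+* ℂ, (1 + ψ θ * t) ^ (u ψ).toNat =
            ψ (1 + θ * t) ^ u ψ * (1 + ψ θ * t) ^ (-u ψ).toNat := fun ψ => by
          have h0 : ψ (1 + θ * t) ≠ 0 := (map_ne_zero ψ).2 ht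
          rw [map_add, map_one, map_mul, map_natCast] at h0 ⊢
          rw [← zpow_natCast, ← zpow_natCast, ← zpow_add₀ h0]
          congr 1
          omega
        simp only [Set.mem_ofPred_eq, Polynomial.eval_prod, Polynomial.eval_pow,
          Polynomial.eval_add, Polynomial.eval_one, Polynomial.eval_mul, Polynomial.eval_C,
          Polynomial.eval_X]
        rw [Finset.prod_congr rfl fun ψ _ => e ψ, Finset.prod_mul_distrib, h _ ht, one_mul]))
    have h2 := congrArg (fun P : Polynomial ℂ => P.derivative.eval 0) hp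
    simp only [ch_der] at h2
    rw [← sub_eq_zero, ← Finset.sum_sub_distrib] at h2
    refine (Finset.sum_congr rfl fun ψ _ => ?_).trans h2
    rw [← sub_mul, ← Int.cast_natCast, ← Int.cast_natCast (-u ψ).toNat, ← Int.cast_sub,
      Int.toNat_sub_toNat_neg]
  have h2 := Fintype.linearIndependent_iff.1 ((linearIndependent_monoidHom E ℂ).comp
    (fun ψ : E →+* ℂ => (ψ : E →* ℂ)) RingHom.coe_monoidHom_injective) (fun ψ => (u ψ : ℂ))
    (funext fun θ => by simpa only [Function.comp_apply, MonoidHom.coe_coe, Finset.sum_apply, Pi.smul_apply, smul_eq_mul, Pi.zero_apply] using h1 θ)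
  exact funext fun ψ => Int.cast_eq_zero.1 (h2 ψ)

/-- `linearIndependent_monoidHom` for `ℚˣ × Eˣ`.  The characters are distinct: if
`∏ ψ, ψ a ^ v ψ = 1` for all `a ≠ 0`, take `a = n - θ`, `θ` a primitive element, `n : ℕ` large, and
compare root multiplicities of the two polynomials `∏ (X - C (ψ θ)) ^ (± v ψ).toNat`. -/
theorem ch_E : LinearIndependent Qb fun (v : Option (E →+* ℂ) → ℤ) (p : ℚˣ × Eˣ) =>
    mon (pt p) v := by
  have e1 : ∀ o : Option (E →+* ℂ), pt (1 : ℚˣ × Eˣ) o = 1 := fun o => by cases o <;> simp [pt]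
  have e2 : ∀ (p q : ℚˣ × Eˣ) (o : Option (E →+* ℂ)), pt (p * q) o = pt p o * pt q o :=
    fun p q o => by cases o <;> simp only [pt, Prod.fst_mul, Units.val_mul, Rat.cast_mul, Prod.snd_mul, map_mul, Option.elim_none, Option.elim_some]
  let f : (Option (E →+* ℂ) → ℤ) → ℚˣ × Eˣ →* ℂ := fun v =>
    ⟨⟨fun p => mon (pt p) v, by simp [mon, e1]⟩, fun p q => by
      simp only [mon, e2, mul_zpow, Finset.prod_mul_distrib, Fintype.prod_option]⟩
  refine ((linearIndependent_monoidHom _ ℂ).comp f fun v w h => ?_).restrict_scalars' Qb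
  have h1 : ∀ p : ℚˣ × Eˣ, mon (pt p) (v - w) = 1 := fun p => by
    have h2 : mon (pt p) v = mon (pt p) w := DFunLike.congr_fun h p
    have h3 := mon_add (pt_ne p) (v - w) w
    rw [sub_add_cancel, h2] at h3
    exact (mul_eq_right₀ (Finset.prod_ne_zero_iff.2 fun o _ => zpow_ne_zero _ (pt_ne p o))).1
      h3.symm
  rw [← sub_eq_zero]
  generalize v - w = u at h1
  have h2 := ch_emb (u := fun ψ => u (some ψ)) fun a ha => by
    simpa [mon, pt] using h1 (1, Units.mk0 a ha)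
  have h3 : (2 : ℝ) ^ u none = 1 := by
    have := congrArg norm (h1 (Units.mk0 2 two_ne_zero, 1))
    simpa [mon, pt] using this
  funext o
  cases o with
  | none => exact (zpow_eq_one_iff_right₀ (by norm_num) (by norm_num)).1 h3
  | some ψ => exact congrFun h2 ψ

/-! ### Block IND -/

theorem ind_li {t : κ → ℂ} (h : AlgebraicIndependent Qb t) :
    LinearIndependent Qb fun v : κ → ℤ => mon t v := by
  have h0 : ∀ o, t o ≠ 0 := h.ne_zero
  have h1 := (basisMonomials κ Qb).linearIndependent.map' (aeval t).toLinearMap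
    (LinearMap.ker_eq_bot.2 h)
  refine linearIndependent_iff_finset_linearIndependent.2 fun S => ?_
  obtain ⟨b, hb⟩ := S.finite_toSet.bddBelow
  have e : ∀ (v : S) o, ((v.1 o - b o).toNat : ℤ) = v.1 o - b o := fun v o =>
    Int.toNat_of_nonneg (sub_nonneg.2 (hb v.2 o))
  have h2 := (h1.comp (fun v : S => Finsupp.equivFunOnFinite.symm fun o => (v.1 o - b o).toNat)
    fun v w hvw => Subtype.ext (funext fun o => by
      have := congrArg (fun f : κ →₀ ℕ => (f o : ℤ)) hvw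
      simpa [e] using this)).map' (LinearMap.mulLeft Qb (mon t b))
    (LinearMap.ker_eq_bot.2 (mul_right_injective₀
      (Finset.prod_ne_zero_iff.2 fun i _ => zpow_ne_zero _ (h0 i))))
  refine (congrArg (fun f : S → ℂ => LinearIndependent Qb f) (funext fun v => ?_)).mpr h2
  simp [aeval_monomial, Finsupp.prod_fintype, mon, ← Finset.prod_mul_distrib, ← zpow_natCast, e,
    ← zpow_add₀ (h0 _)]

/-- Take `t` algebraically independent (`ℂ` is uncountable); `def_mono` with `Z = ⊤`. -/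
theorem exists_gen (κ : Type) [Fintype κ] : ∃ t : κ → ℂ, (∀ o, t o ≠ 0) ∧
    (LinearIndependent Qb fun v : κ → ℤ => mon t v) ∧ ∀ U, rk t U = finrank ℚ U := by
  classical
  obtain ⟨S, hS⟩ := exists_isTranscendenceBasis ℚ ℂ
  have hc : Cardinal.aleph0 < Cardinal.mk ℂ := by
    rw [Cardinal.mk_complex]
    exact Cardinal.aleph0_lt_continuum
  have : Infinite S := Cardinal.infinite_iff.2 (hc.le.trans
    (IsAlgClosed.cardinal_eq_cardinal_transcendence_basis_of_aleph0_lt' _ hS (by simp) hc).le)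
  let f : κ ↪ S := (Fintype.equivFin κ).toEmbedding.trans
    (Fin.valEmbedding.trans (Infinite.natEmbedding S))
  have h := hS.1.comp f f.injective
  refine ⟨_, h.ne_zero, ind_li h.algebraicClosure, fun U => ?_⟩
  have h1 := def_mono h.ne_zero (le_top (a := U))
  have h2 := rk_fin h.ne_zero U
  have h3 : Set.range (Subtype.val ∘ f) ⊆ per (Subtype.val ∘ f) ⊤ := by
    rintro _ ⟨o, rfl⟩
    refine ⟨Pi.single o 1, trivial, ?_⟩
    rw [mon, Finset.prod_eq_single o (fun b _ hb => by simp [hb]) (by simp only [Finset.mem_univ, not_true_eq_false, Function.comp_apply, Pi.single_eq_same, zpow_ofNat, pow_one, IsEmpty.forall_iff])]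
    simp
  have h4 := (show M.Indep _ from AlgebraicIndependent.matroid_indep_iff.mpr
    h.to_subtype_range).cardinalMk_le_cRk_of_subset h3
  rw [Cardinal.mk_range_eq _ h.injective, ← rk_eq h.ne_zero, Cardinal.mk_fintype,
    Nat.cast_le] at h4
  rw [finrank_top, finrank_fintype_fun_eq_card] at h1
  omega

/-! ### Block TR -/

/-- The point of the torus with coordinates `t`. -/
noncomputable def Dm (Q : Matrix m m ℂ) (u : m → κ → ℤ) (t : κ → ℂ) (q : m × m) : ℂ :=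
  (Q * diagonal (fun k => mon t (u k)) * Q⁻¹ : Matrix m m ℂ) q.1 q.2

/-- Laurent polynomial functions on the torus with algebraic coefficients. -/
noncomputable def tr_sp (κ : Type) [Fintype κ] :
    Submodule Qb ({t : κ → ℂ // ∀ o, t o ≠ 0} → ℂ) :=
  Submodule.span Qb (Set.range fun (v : κ → ℤ) t => mon t.1 v)

theorem tr_mul {F G : {t : κ → ℂ // ∀ o, t o ≠ 0} → ℂ} (hF : F ∈ tr_sp κ) (hG : G ∈ tr_sp κ) :
    F * G ∈ tr_sp κ := by
  have h : tr_sp κ * tr_sp κ ≤ tr_sp κ := by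
    rw [tr_sp, Submodule.span_mul_span]
    refine Submodule.span_mono ?_
    rintro _ ⟨_, ⟨v, rfl⟩, _, ⟨w, rfl⟩, rfl⟩
    exact ⟨v + w, funext fun t => mon_add t.2 v w⟩
  exact h (Submodule.mul_mem_mul hF hG)

theorem tr_one {c : ℂ} (hc : IsAlgebraic ℚ c) (v : κ → ℤ) :
    (fun t : {t : κ → ℂ // ∀ o, t o ≠ 0} => c * mon t.1 v) ∈ tr_sp κ :=
  (tr_sp κ).smul_mem (⟨c, mem_algebraicClosure_iff.2 hc⟩ : Qb) (Submodule.subset_span ⟨v, rfl⟩)

theorem tr_mem {Q : Matrix m m ℂ} (ha : Al Q) (u : m → κ → ℤ) (p : MvPolynomial (m × m) ℚ) :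
    (fun t : {t : κ → ℂ // ∀ o, t o ≠ 0} => aeval (Dm Q u t.1) p) ∈ tr_sp κ := by
  induction p using MvPolynomial.induction_on with
  | C a =>
    convert tr_one (isAlgebraic_algebraMap (A := ℂ) a) (0 : κ → ℤ) using 2 with t
    simp only [ne_eq, algHom_C, eq_ratCast, mon, Pi.zero_apply, zpow_ofNat, pow_zero, Finset.prod_const_one, mul_one]
  | add p q hp hq =>
    simp only [map_add]
    exact (tr_sp κ).add_mem hp hq
  | mul_X p q hp =>
    have e : (fun t : {t : κ → ℂ // ∀ o, t o ≠ 0} => Dm Q u t.1 q) =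
        ∑ k, fun t => Q q.1 k * Q⁻¹ k q.2 * mon t.1 (u k) := by
      funext t
      rw [Dm, Matrix.mul_apply, Finset.sum_apply]
      exact Finset.sum_congr rfl fun k _ => by rw [mul_diagonal, mul_right_comm]
    have h : (fun t : {t : κ → ℂ // ∀ o, t o ≠ 0} => Dm Q u t.1 q) ∈ tr_sp κ :=
      e ▸ Submodule.sum_mem _ fun k _ => tr_one ((ha _ _).mul (ha.inv _ _)) _
    simp only [map_mul, aeval_X]
    exact tr_mul hp h

/-- `aeval (Dm Q u t) p` is the image under `AddMonoidAlgebra.lift` of an element of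
`AddMonoidAlgebra Qb (κ → ℤ)` that does not depend on `t`. -/
theorem tr {Q : Matrix m m ℂ} (ha : Al Q) (u : m → κ → ℤ) {t : ι → κ → ℂ} (ht : ∀ i o, t i o ≠ 0)
    (hl : LinearIndependent Qb fun (v : κ → ℤ) i => mon (t i) v) {p : MvPolynomial (m × m) ℚ}
    (hp : ∀ i, aeval (Dm Q u (t i)) p = 0) {t' : κ → ℂ} (h' : ∀ o, t' o ≠ 0) :
    aeval (Dm Q u t') p = 0 := by
  obtain ⟨c, hc⟩ := (Finsupp.mem_span_range_iff_exists_finsupp).1 (tr_mem ha u p)
  have h0 : c = 0 := linearIndependent_iff.1 hl c <| funext fun i => by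
    have := congrFun hc ⟨t i, ht i⟩
    rw [hp i] at this
    simpa only [Finsupp.linearCombination_apply, Finsupp.sum, Finset.sum_apply, Pi.smul_apply,
      Pi.zero_apply] using this
  have := congrFun hc ⟨t', h'⟩
  rw [h0, Finsupp.sum_zero_index] at this
  exact this.symm

/-- `rk_le`, `crk_mon` or `mon_mem`, `perm_conj`. -/
theorem crk_Dm {Q : Matrix m m ℂ} (hQ : Q.det ≠ 0) (ha : Al Q) (u : m → κ → ℤ) {t : κ → ℂ}
    (ht : ∀ o, t o ≠ 0) :
    M.cRk (Set.range (Dm Q u t)) = rk t (Submodule.span ℚ (cst '' Set.range u)) := by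
  rw [rk_eq ht]
  refine le_antisymm (rk_le ?_) (rk_le ?_)
  · rintro _ ⟨q, rfl⟩
    refine mem_cl.2 (perm_conj ha ha.inv (fun i j => ?_) q.1 q.2)
    rw [diagonal_apply]
    split_ifs
    · exact mem_cl.1 (sub_cl _ ⟨u i, Submodule.subset_span ⟨_, ⟨i, rfl⟩, rfl⟩, rfl⟩)
    · exact isAlgebraic_zero
  · rintro _ ⟨v, hv, rfl⟩
    refine mon_mem ht ?_ hv
    rintro _ ⟨k, rfl⟩
    have := perm_conj ha.inv ha (X := Q * diagonal (fun k => mon t (u k)) * Q⁻¹)
      (K := IntermediateField.adjoin ℚ (Set.range (Dm Q u t)))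
      (fun i j => mem_cl.1 (sub_cl _ ⟨(i, j), rfl⟩)) k k
    rw [Matrix.mul_assoc, nonsing_inv_mul_cancel_right _ _ hQ.isUnit,
      nonsing_inv_mul_cancel_left _ _ hQ.isUnit, diagonal_apply_eq] at this
    exact mem_cl.2 this

/-! ### Block GRP -/

theorem grp_lin (S : Finset ι) (c v : ι → ℂ)
    (h : ∀ π : ℂ →ₗ[ℚ] ℚ, ∑ i ∈ S, (π (c i) : ℂ) * v i = 0) : ∑ i ∈ S, c i * v i = 0 := by
  classical
  let b := Basis.ofVectorSpace ℚ ℂ
  have e : ∀ i ∈ S, c i * v i = ∑ j ∈ S.biUnion fun i => (b.repr (c i)).support,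
      b j * ((b.coord j (c i) : ℂ) * v i) := fun i hi => by
    conv_lhs => rw [← b.linearCombination_repr (c i), Finsupp.linearCombination_apply,
      Finsupp.sum_of_support_subset _ (Finset.subset_biUnion_of_mem
        (fun i => (b.repr (c i)).support) hi) (fun j a => a • b j)
          (fun _ _ => zero_smul _ _), Finset.sum_mul]
    refine Finset.sum_congr rfl fun j _ => ?_
    rw [Basis.coord_apply, Rat.smul_def]
    ring
  rw [Finset.sum_congr rfl e, Finset.sum_comm]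
  exact Finset.sum_eq_zero fun j _ => by rw [← Finset.mul_sum, h, mul_zero]

theorem grp_key {V : Set (σ → ℂ)} (h : ∀ y ∈ V, ∀ q, ∃ r : ℚ, y q = r) {x : σ → ℂ}
    (hx : x ∈ zeroLocus ℂ (vanishingIdeal ℚ V)) (P : MvPolynomial σ ℂ)
    (hP : ∀ y ∈ V, aeval y P = 0) : aeval x P = 0 := by
  have e : ∀ (y : σ → ℂ) (π : ℂ →ₗ[ℚ] ℚ),
      aeval y (∑ u ∈ P.support, monomial u (π (coeff u P))) =
        ∑ u ∈ P.support, (π (coeff u P) : ℂ) * u.prod fun i k => y i ^ k := fun y π => by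
    rw [map_sum]
    exact Finset.sum_congr rfl fun u _ => by rw [aeval_monomial, eq_ratCast]
  have e' : ∀ y : σ → ℂ, aeval y P = ∑ u ∈ P.support, coeff u P * u.prod fun i k => y i ^ k :=
    fun y => by
      conv_lhs => rw [P.as_sum, map_sum]
      exact Finset.sum_congr rfl fun u _ => by rw [aeval_monomial]; rfl
  rw [e']
  refine grp_lin _ _ _ fun π => ?_
  rw [← e]
  refine hx _ fun y hy => ?_
  choose r hr using h y hy
  have e2 : ∀ u : σ →₀ ℕ, (u.prod fun i k => y i ^ k) = ((u.prod fun i k => r i ^ k : ℚ) : ℂ) :=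
    fun u => by simp only [Finsupp.prod, hr]; push_cast; rfl
  have h1 := congrArg π (hP y hy)
  rw [e', map_sum, map_zero] at h1
  rw [e, ← Rat.cast_zero (α := ℂ), ← h1, Rat.cast_sum]
  refine Finset.sum_congr rfl fun u _ => ?_
  rw [e2, mul_comm (coeff u P), ← Rat.smul_def _ (coeff u P), map_smul, smul_eq_mul, Rat.cast_mul,
    mul_comm]

theorem grp_sub (f : σ → MvPolynomial σ ℂ) (p : MvPolynomial σ ℚ) (x : σ → ℂ) :
    aeval x (aeval f p) = aeval (fun q => aeval x (f q)) p :=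
  DFunLike.congr_fun
    (comp_aeval f ((aeval x : MvPolynomial σ ℂ →ₐ[ℂ] ℂ).restrictScalars ℚ)) p

theorem grp_adj (x : GL m ℂ) (q : m × m) :
    aeval (ent x) ((mvPolynomialX m m ℂ).adjugate q.1 q.2) = x.1.det * ent x⁻¹ q := by
  have h1 := (aeval (ent x) : MvPolynomial (m × m) ℂ →ₐ[ℂ] ℂ).map_adjugate (mvPolynomialX m m ℂ)
  have h2 : (aeval (ent x) : MvPolynomial (m × m) ℂ →ₐ[ℂ] ℂ).mapMatrix (mvPolynomialX m m ℂ) =
      x.1 := mvPolynomialX_mapMatrix_aeval ℂ x.1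
  have h3 : x.1.adjugate = x.1.det • (x⁻¹).1 := by
    rw [← Matrix.mul_one (x⁻¹).1, ← Matrix.mul_smul, ← mul_adjugate, ← Matrix.mul_assoc,
      Units.inv_mul, Matrix.one_mul]
  rw [h2, h3] at h1
  exact congrFun (congrFun h1 q.1) q.2

theorem grp_inv (p : MvPolynomial (m × m) ℚ) : ∃ (k : ℕ) (P : MvPolynomial (m × m) ℂ),
    ∀ x : GL m ℂ, aeval (ent x) P = x.1.det ^ k * aeval (ent x⁻¹) p := by
  have hd : ∀ x : GL m ℂ, aeval (ent x) (mvPolynomialX m m ℂ).det = x.1.det := fun x => by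
    rw [AlgHom.map_det]
    exact congrArg det (mvPolynomialX_mapMatrix_aeval ℂ x.1)
  induction p using MvPolynomial.induction_on with
  | C a => exact ⟨0, C (a : ℂ), fun x => by simp only [algHom_C, Algebra.algebraMap_self, map_ratCast, pow_zero, eq_ratCast, one_mul]⟩
  | add p p' ih ih' =>
    obtain ⟨k, P, hP⟩ := ih
    obtain ⟨k', P', hP'⟩ := ih'
    refine ⟨k + k', (mvPolynomialX m m ℂ).det ^ k' * P + (mvPolynomialX m m ℂ).det ^ k * P',
      fun x => ?_⟩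
    rw [map_add, map_mul, map_mul, map_pow, map_pow, hd, hP, hP', map_add]
    ring
  | mul_X p q ih =>
    obtain ⟨k, P, hP⟩ := ih
    refine ⟨k + 1, P * (mvPolynomialX m m ℂ).adjugate q.1 q.2, fun x => ?_⟩
    rw [map_mul, hP, grp_adj, map_mul, aeval_X]
    ring

/-- The closure of a group of rational matrices is a group.  A polynomial over `ℂ` that vanishes
on `Γ` vanishes on the zero locus (apply all `π : ℂ →ₗ[ℚ] ℚ` to the coefficients).  Inverse:
`det ^ N * p (adjugate / det)` is a rational polynomial. -/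
theorem grp (Γ : Subgroup (GL m ℂ)) (h : ∀ x ∈ Γ, ∀ q, ∃ r : ℚ, ent x q = r) :
    ∃ G : Subgroup (GL m ℂ), ∀ x, x ∈ G ↔ ent x ∈ zeroLocus ℂ (vanishingIdeal ℚ (ent '' Γ)) := by
  have key : ∀ x : GL m ℂ, ent x ∈ zeroLocus ℂ (vanishingIdeal ℚ (ent '' Γ)) →
      ∀ P : MvPolynomial (m × m) ℂ, (∀ y ∈ Γ, aeval (ent y) P = 0) → aeval (ent x) P = 0 :=
    fun x hx P hP => grp_key (by rintro _ ⟨y, hy, rfl⟩; exact h y hy) hx P
      (by rintro _ ⟨y, hy, rfl⟩; exact hP y hy)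
  have eL : ∀ (p : MvPolynomial (m × m) ℚ) (x y : GL m ℂ), aeval (ent y) (aeval
      (fun q : m × m => ∑ k, (C (ent x (q.1, k)) * X (k, q.2) : MvPolynomial (m × m) ℂ)) p) =
        aeval (ent (x * y)) p := fun p x y => by
    rw [grp_sub]
    congr 2
    funext q
    simp only [ent, map_sum, aeval_eq_eval, map_mul, eval_C, eval_X, Units.val_mul, Matrix.mul_apply]
  have eR : ∀ (p : MvPolynomial (m × m) ℚ) (x y : GL m ℂ), aeval (ent x) (aeval
      (fun q : m × m => ∑ k, (X (q.1, k) * C (ent y (k, q.2)) : MvPolynomial (m × m) ℂ)) p) =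
        aeval (ent (x * y)) p := fun p x y => by
    rw [grp_sub]
    congr 2
    funext q
    simp only [ent, map_sum, aeval_eq_eval, map_mul, eval_X, eval_C, Units.val_mul, Matrix.mul_apply]
  refine ⟨⟨⟨⟨{x | ent x ∈ zeroLocus ℂ (vanishingIdeal ℚ (ent '' Γ))}, fun {x y} hx hy p hp => ?_⟩,
    fun p hp => hp _ ⟨1, Γ.one_mem, rfl⟩⟩, fun {x} hx p hp => ?_⟩, fun _ => Iff.rfl⟩
  · rw [← eR]
    refine key x hx _ fun γ hγ => ?_
    rw [eR, ← eL]
    refine key y hy _ fun δ hδ => ?_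
    rw [eL]
    exact hp _ ⟨_, Γ.mul_mem hγ hδ, rfl⟩
  · obtain ⟨k, P, hP⟩ := grp_inv p
    have h1 := key x hx P fun γ hγ => by rw [hP, hp _ ⟨_, Γ.inv_mem hγ, rfl⟩, mul_zero]
    rw [hP] at h1
    exact (mul_eq_zero.1 h1).resolve_left (pow_ne_zero _ x.det_ne_zero)

/-! ### Block KD -/

theorem kd_dim {R S : Type} [CommRing R] [CommRing S] (f : R →+* S) (hi : Function.Injective f)
    (hf : f.IsIntegral) : ringKrullDim S = ringKrullDim R := by
  let := f.toAlgebra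
  have : Algebra.IsIntegral R S := ⟨hf⟩
  refine le_antisymm (Order.krullDim_le_of_strictMono (PrimeSpectrum.comap f) fun P Q h =>
    Ideal.IsIntegral.comap_lt_comap (R := R) (I := P.1) (J := Q.1) h) (iSup_le fun l => ?_)
  obtain ⟨P, -, hP, h⟩ := Ideal.exists_ideal_over_prime_of_isIntegral (S := S) l.head.1 ⊥
    (le_of_eq_of_le ((RingHom.injective_iff_ker_eq_bot f).1 hi) bot_le)
  have : P.LiesOver l.head.1 := ⟨h.symm⟩
  obtain ⟨L, hL, -⟩ := Ideal.exists_ltSeries_of_hasGoingUp l P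
  rw [← hL]
  exact Order.LTSeries.length_le_krullDim L

/-- `exists_integral_inj_algHom_of_fg`, `MvPolynomial.ringKrullDim_of_isNoetherianRing`,
`Ideal.IsIntegral.comap_lt_comap`, `Ideal.exists_ltSeries_of_hasGoingUp`, `trdeg_eq`. -/
theorem kd [Finite σ] (x : σ → ℂ) : ∃ d : ℕ,
    ringKrullDim (MvPolynomial σ ℚ ⧸ vanishingIdeal ℚ {x}) = d ∧ M.cRk (Set.range x) = d := by
  let φ : (MvPolynomial σ ℚ ⧸ vanishingIdeal ℚ {x}) →ₐ[ℚ] ℂ :=
    Ideal.Quotient.liftₐ _ (aeval x) fun p hp => hp x rfl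
  have hφ : Function.Injective φ := (injective_iff_map_eq_zero φ).2 fun a ha => by
    obtain ⟨p, rfl⟩ := Ideal.Quotient.mk_surjective a
    exact Ideal.Quotient.eq_zero_iff_mem.2 fun y hy => hy ▸ ha
  have := φ.toRingHom.domain_nontrivial
  obtain ⟨s, f, hi, hf⟩ := exists_integral_inj_algHom_of_fg ℚ
    (MvPolynomial σ ℚ ⧸ vanishingIdeal ℚ {x})
  refine ⟨s, ?_, ?_⟩
  · rw [kd_dim f.toRingHom hi hf, MvPolynomial.ringKrullDim_of_isNoetherianRing,
      ringKrullDim_eq_zero_of_field]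
    simp only [Nat.card_eq_fintype_card, Fintype.card_fin, zero_add]
  obtain ⟨y, hy⟩ : ∃ y : Fin s → ℂ, y = fun i => φ (f (X i)) := ⟨_, rfl⟩
  have e : (aeval y : MvPolynomial (Fin s) ℚ →ₐ[ℚ] ℂ) = φ.comp f := algHom_ext fun i => by
    simp [hy]
  have ha : AlgebraicIndependent ℚ y := by
    rw [algebraicIndependent_iff_injective_aeval, e]
    exact hφ.comp hi
  have hI : M.Indep (Set.range y) :=
    AlgebraicIndependent.matroid_indep_iff.mpr ha.to_subtype_range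
  have h1 : M.cRk (Set.range y) = s := by
    rw [← hI.cRk_eq_cardinalMk, Cardinal.mk_range_eq _ ha.injective, Cardinal.mk_fin]
  rw [← h1]
  refine le_antisymm (rk_le ?_) (rk_le ?_)
  · rintro _ ⟨j, rfl⟩
    obtain ⟨p, hp, h0⟩ := hf (Ideal.Quotient.mk _ (X j))
    let ψ : MvPolynomial (Fin s) ℚ →ₐ[ℚ] IntermediateField.adjoin ℚ (Set.range y) :=
      aeval fun i => ⟨y i, IntermediateField.subset_adjoin _ _ ⟨i, rfl⟩⟩
    refine mem_cl.2 (IsIntegral.isAlgebraic ⟨p.map ψ.toRingHom, hp.map _, ?_⟩)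
    have e2 : (algebraMap _ ℂ).comp ψ.toRingHom = φ.toRingHom.comp f.toRingHom :=
      congrArg AlgHom.toRingHom (a₁ := (IntermediateField.val _).comp ψ) (a₂ := φ.comp f)
        (MvPolynomial.algHom_ext fun i =>
          (congrArg (IntermediateField.val _) (aeval_X _ i)).trans (congrFun hy i))
    have e3 : x j = φ.toRingHom (Ideal.Quotient.mk _ (X j)) := (aeval_X x j).symm
    rw [Polynomial.eval₂_map, e2, e3, ← Polynomial.hom_eval₂]
    exact (congrArg φ h0).trans (map_zero φ)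
  · rintro _ ⟨i, rfl⟩
    obtain ⟨p, hp⟩ := Ideal.Quotient.mk_surjective (f (X i))
    have e3 : y i ∈ IntermediateField.adjoin ℚ (Set.range x) := by
      refine IntermediateField.algebra_adjoin_le_adjoin _ _ ?_
      rw [Algebra.adjoin_range_eq_range_aeval, hy]
      exact ⟨p, congrArg φ hp⟩
    exact mem_cl.2 (isAlgebraic_algebraMap (⟨y i, e3⟩ : IntermediateField.adjoin ℚ (Set.range x)))

/-! ### Block CMM -/

theorem cmm_key {L : Type} [Field L] [NumberField L] [Fintype σ] (y : σ → L) (c : σ → ℂ)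
    (h : ∀ φ : L →+* ℂ, ∑ i, c i * φ (y i) = 0) (π : ℂ →ₗ[ℚ] ℚ) :
    ∑ i, (π (c i) : L) * y i = 0 := by
  let β := Module.finBasis ℚ L
  have h1 := vec_perp β (c := fun j => ∑ i, β.repr (y i) j • c i) fun φ => by
    rw [← h φ]
    simp only [Finset.sum_mul]
    rw [Finset.sum_comm]
    refine Finset.sum_congr rfl fun i _ => ?_
    conv_rhs => rw [← β.sum_repr (y i)]
    simp only [map_sum, Finset.mul_sum, Rat.smul_def, map_mul, map_ratCast]
    exact Finset.sum_congr rfl fun j _ => by ring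
  refine β.repr.injective (Finsupp.ext fun j => ?_)
  have := congrArg π (congrFun h1 j)
  simp only [← Rat.smul_def]
  simpa only [map_sum, map_smul, Finsupp.coe_finsetSum, Finsupp.coe_smul, Finset.sum_apply, Pi.smul_apply, smul_eq_mul, map_zero, Finsupp.coe_zero, Pi.zero_apply, mul_comm] using this

/-- A maximal ideal above the ideal of `x` has a number field `L` as its residue field, all
`φ ∘ y` are points, `vec_perp`. -/
theorem lin_pts [Fintype σ] (x c : σ → ℂ)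
    (h : ∀ y ∈ zeroLocus ℂ (vanishingIdeal ℚ {x}), ∑ i, c i * y i = 0) (π : ℂ →ₗ[ℚ] ℚ) :
    ∑ i, (π (c i) : ℂ) * x i = 0 := by
  have hp : (∑ i, C (π (c i)) * X i : MvPolynomial σ ℚ) ∈ vanishingIdeal ℚ {x} := by
    rw [← (inferInstance : (vanishingIdeal ℚ {x}).IsPrime).radical, Ideal.radical_eq_jacobson]
    refine Ideal.mem_sInf.2 fun {J} ⟨hJ, hm⟩ => ?_
    let := Ideal.Quotient.field J
    have := finite_of_finite_type_of_isJacobsonRing ℚ (MvPolynomial σ ℚ ⧸ J)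
    have := NumberField.of_module_finite ℚ (MvPolynomial σ ℚ ⧸ J)
    have := cmm_key (fun i => Ideal.Quotient.mk J (X i)) c (fun φ => h _ fun p hp => by
      have e : (aeval fun i => φ (Ideal.Quotient.mk J (X i)) : MvPolynomial σ ℚ →ₐ[ℚ] ℂ).toRingHom =
          φ.comp (Ideal.Quotient.mk J) :=
        MvPolynomial.ringHom_ext' (Subsingleton.elim _ _) fun i => by simp only [AlgHom.toRingHom_eq_coe, RingHom.coe_coe, aeval_X, RingHom.coe_comp, Function.comp_apply]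
      refine (RingHom.congr_fun e p).trans ?_
      rw [RingHom.comp_apply, Ideal.Quotient.eq_zero_iff_mem.2 (hJ hp), map_zero]) π
    rw [← Ideal.Quotient.eq_zero_iff_mem, map_sum, ← this]
    refine Finset.sum_congr rfl fun i _ => ?_
    rw [map_mul, ← eq_ratCast ((Ideal.Quotient.mk J).comp C)]
    rfl
  simpa only [map_sum, map_mul, algHom_C, eq_ratCast, aeval_X] using hp x rfl

theorem cmm_sum {R : Type} [CommRing R] (Y Z : Matrix n n R) (a b : n) :
    ∑ q : n × n, ((if q.1 = a then Z q.2 b else 0) - (if q.2 = b then Z a q.1 else 0)) *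
      Y q.1 q.2 = (Y * Z - Z * Y) a b := by
  simp only [sub_mul, Finset.sum_sub_distrib, Fintype.sum_prod_type, Matrix.sub_apply,
    Matrix.mul_apply, ite_mul, zero_mul]
  rw [Finset.sum_comm]
  simp only [mul_comm, Finset.sum_ite_eq', Finset.mem_univ, ↓ reduceIte]

theorem cmm_mem {J : Matrix n n ℝ} {h : ℂ → Matrix n n ℝ} (hI : h I = J) (hJ : J * J = -1)
    {y : n × n → ℂ} (hy : y ∈ zeroLocus ℂ (vanishingIdeal ℚ {fun q : n × n => (J q.1 q.2 : ℂ)})) :
    ∃ Y ∈ MT h, ent Y = y := by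
  have key : ∀ z ∈ zeroLocus ℂ (vanishingIdeal ℚ {fun q : n × n => (J q.1 q.2 : ℂ)}),
      (of fun i j => z (i, j)) * -(of fun i j => z (i, j)) = (1 : Matrix n n ℂ) := by
    intro z hz
    ext a b
    have h1 := hz (∑ k, .X (a, k) * .X (k, b) + C ((1 : Matrix n n ℚ) a b)) (by
      rintro _ rfl
      have := congrArg ofReal (congrFun₂ hJ a b)
      by_cases e : a = b <;> simpa only [e, one_apply, ↓ reduceIte, C_1, map_add, map_sum, map_mul, aeval_X, map_one, add_eq_zero_iff_eq_neg, mul_apply, ofReal_sum, ofReal_mul, Matrix.neg_apply, ofReal_neg, ofReal_one, C_0, add_zero, neg_zero, ofReal_zero] using this)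
    by_cases e : a = b <;>
      simpa only [neg_of, e, mul_apply, of_apply, Pi.neg_apply, mul_neg, Finset.sum_neg_distrib, one_apply, ↓ reduceIte, neg_eq_iff_eq_neg, C_1, map_add, map_sum, map_mul, aeval_X, map_one, add_eq_zero_iff_eq_neg, neg_zero, C_0, add_zero] using h1
  have un : ∀ z ∈ zeroLocus ℂ (vanishingIdeal ℚ {fun q : n × n => (J q.1 q.2 : ℂ)}),
      ∃ Y : GL n ℂ, ent Y = z := fun z hz =>
    ⟨⟨_, _, key z hz, mul_eq_one_comm.1 (key z hz)⟩, rfl⟩
  obtain ⟨Y, hY⟩ := un y hy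
  obtain ⟨Z, hZ⟩ := un _ (zeroLocus_vanishingIdeal_le _ rfl)
  refine ⟨Y, Subgroup.mem_sInf.2 fun G ⟨⟨K, hK⟩, hG⟩ => (hK Y).2 fun p hp => ?_, hY⟩
  have := (hK Z).1 (hG I I_ne_zero Z (by
    ext a b
    rw [hI]
    exact congrFun hZ (a, b)))
  rw [hY]
  refine hy p ?_
  rintro _ rfl
  exact hZ ▸ this p hp

/-- The points `y` of the zero locus of the ideal of `J = hz A I` satisfy `y * y = -1` and lie in
`MT`, so they commute with `J`; `lin_pts` with `π = l ∘ re`. -/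
theorem cm_of_mt (A : AbVar g N) (h : ∀ x ∈ MT (hz A), ∀ y ∈ MT (hz A), x * y = y * x) :
    Cm A.J := by
  obtain ⟨D, hD, -⟩ := exists_hd A
  have hJ : A.J * A.J = -1 := hD ▸ D.JJ
  have hI : hz A I = A.J := by simp [hz_eq]
  obtain ⟨Z, z1, z2⟩ := cmm_mem hI hJ (zeroLocus_vanishingIdeal_le _ rfl)
  have hZ : Z.1 = A.J.map ofReal := Matrix.ext fun a b => congrFun z2 (a, b)
  intro l l'
  ext a b
  have h1 := lin_pts (σ := Fin (2 * g) × Fin (2 * g)) (fun q => (A.J q.1 q.2 : ℂ))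
    (fun q => (if q.1 = a then Z.1 q.2 b else 0) - (if q.2 = b then Z.1 a q.1 else 0))
    (fun y hy => by
      obtain ⟨Y, y1, rfl⟩ := cmm_mem hI hJ hy
      have := congrArg Units.val (h Y y1 Z z1)
      rw [Units.val_mul, Units.val_mul] at this
      exact (cmm_sum Y.1 Z.1 a b).trans (by rw [this, sub_self]; rfl))
    (l' ∘ₗ reLm.restrictScalars ℚ)
  have h2 : ∑ q : Fin (2 * g) × Fin (2 * g), ((if q.1 = a then A.J.map l' q.2 b else 0) -
      (if q.2 = b then A.J.map l' a q.1 else 0) : ℚ) • A.J q.1 q.2 = 0 := by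
    refine ofReal_injective (Eq.trans ?_ h1)
    rw [ofReal_sum]
    refine Finset.sum_congr rfl fun q _ => ?_
    split_ifs <;> simp only [map_apply, Rat.smul_def, Rat.cast_sub, ofReal_mul, ofReal_sub, ofReal_ratCast, hZ, LinearMap.coe_comp, LinearMap.coe_restrictScalars, reLm_coe, Function.comp_apply, sub_re, ofReal_re, map_sub, sub_zero, zero_sub, neg_smul, ofReal_neg, neg_re, map_neg, Rat.cast_neg, neg_mul, sub_self, zero_smul, ofReal_zero, zero_re, map_zero, Rat.cast_zero, zero_mul]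
  have h3 := congrArg l h2
  simp only [map_sum, map_smul, smul_eq_mul, map_zero] at h3
  exact sub_eq_zero.1 ((cmm_sum (A.J.map l) (A.J.map l') a b).symm.trans h3)

/-! ### Block DIM -/

/-- A Hodge structure of CM type in diagonal form. -/
structure Dt (h : ℂ → Matrix m m ℝ) (b₀ : E →+* ℂ) where
  Q : Matrix m m ℂ
  u : m → Option (E →+* ℂ) → ℤ
  det : Q.det ≠ 0
  al : Al Q
  hY : ∀ a : E, a ≠ 0 → ∃ Y : Matrix m m E, ∀ ψ : E →+* ℂ,
    Y.map ψ * Q = Q * diagonal fun k => ψ a ^ u k (some ψ)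
  hW : ∀ c : ℚ, c ≠ 0 → ∃ W : Matrix m m ℚ,
    W.map (Rat.cast : ℚ → ℂ) * Q = Q * diagonal fun k => (c : ℂ) ^ u k none
  hh : ∀ (t : ℝ) (x : ℂ), t ≠ 0 → ‖x‖ = 1 → (h (t ^ 2 * x)).map ofReal * Q =
    Q * diagonal fun k => (t : ℂ) ^ u k none * x ^ u k (some b₀)

variable {h : ℂ → Matrix m m ℝ} {b₀ : E →+* ℂ}

theorem rat_prod [IsGalois ℚ E] (ψ : E →+* ℂ) (F : (E →+* ℂ) → ℂ) :
    ∏ γ : E ≃ₐ[ℚ] E, F (ψ.comp (γ : E →+* E)) = ∏ φ, F φ := by
  refine Function.Bijective.prod_comp (e := fun γ : E ≃ₐ[ℚ] E => ψ.comp (γ : E →+* E)) ?_ F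
  rw [Fintype.bijective_iff_injective_and_card, Embeddings.card, ← Nat.card_eq_fintype_card,
    IsGalois.card_aut_eq_finrank]
  exact ⟨fun γ γ' e => AlgEquiv.ext fun x => ψ.injective (RingHom.congr_fun e x), rfl⟩

theorem rat_ind (D : Dt h b₀) {a : E} (ha : a ≠ 0) (S : Finset (E ≃ₐ[ℚ] E)) :
    ∃ Y : Matrix m m E, ∀ ψ : E →+* ℂ, Y.map ψ * D.Q = D.Q * diagonal fun k =>
      ∏ γ ∈ S, ψ.comp (γ : E →+* E) a ^ D.u k (some (ψ.comp (γ : E →+* E))) := by
  classical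
  obtain ⟨Y₀, h₀⟩ := D.hY a ha
  induction S using Finset.induction_on with
  | empty => exact ⟨1, fun ψ => by simp⟩
  | insert γ S hγ ih =>
    obtain ⟨Y, hY⟩ := ih
    refine ⟨Y * Y₀.map (γ : E →+* E), fun ψ => ?_⟩
    have e : (Y₀.map (γ : E →+* E)).map ψ = Y₀.map (ψ.comp (γ : E →+* E)) := rfl
    rw [Matrix.map_mul, e, Matrix.mul_assoc, h₀, ← Matrix.mul_assoc, hY, Matrix.mul_assoc,
      diagonal_mul_diagonal]
    simp only [Finset.prod_insert hγ, mul_comm]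

/-- By induction on `S : Finset (E ≃ₐ[ℚ] E)` there is `Y` with `Y.map ψ * Q = Q * diagonal
(∏ γ ∈ S, ψ (γ a) ^ u k (some (ψ ∘ γ)))` for all `ψ`.  For `S = univ` the right side does not
depend on `ψ`, so the entries of `Y` are fixed by the Galois group. -/
theorem Dt.rat [IsGalois ℚ E] (D : Dt h b₀) (p : ℚˣ × Eˣ) (q : m × m) :
    ∃ r : ℚ, Dm D.Q D.u (pt p) q = r := by
  obtain ⟨Y, hY⟩ := rat_ind D p.2.ne_zero Finset.univ
  obtain ⟨W, hW⟩ := D.hW p.1 p.1.ne_zero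
  have e (ψ : E →+* ℂ) : Y.map ψ =
      D.Q * diagonal (fun k => ∏ φ : E →+* ℂ, φ p.2 ^ D.u k (some φ)) * D.Q⁻¹ := by
    rw [← mul_nonsing_inv_cancel_right _ (Y.map ψ) D.det.isUnit, hY]
    congr 3
    exact funext fun k => rat_prod ψ fun φ => φ p.2 ^ D.u k (some φ)
  have h1 (i j : m) : ∃ r : ℚ, algebraMap ℚ E r = Y i j :=
    (IsGalois.mem_range_algebraMap_iff_fixed _).2 fun γ => b₀.injective
      (congrFun (congrFun ((e (b₀.comp (γ : E →+* E))).trans (e b₀).symm) i) j)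
  choose R hR using h1
  refine ⟨(W * of R) q.1 q.2, ?_⟩
  have h2 : D.Q * diagonal (fun k => mon (pt p) (D.u k)) * D.Q⁻¹ =
      W.map (Rat.cast : ℚ → ℂ) * Y.map b₀ := by
    rw [e, ← Matrix.mul_assoc, ← Matrix.mul_assoc, hW,
      Matrix.mul_assoc D.Q _ (diagonal _), diagonal_mul_diagonal]
    simp only [mon, pt, Fintype.prod_option, Option.elim_none, Option.elim_some]
  rw [Dm, h2]
  simp only [mul_apply, map_apply, ← hR, eq_ratCast, map_ratCast, of_apply, Rat.cast_sum, Rat.cast_mul]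

theorem low_eq {Q X : Matrix m m ℂ} (hQ : Q.det ≠ 0) {d : m → ℂ} (h : X * Q = Q * diagonal d) :
    X = Q * diagonal d * Q⁻¹ := by
  rw [← h, Matrix.mul_nonsing_inv_cancel_right _ _ hQ.isUnit]

theorem low_gl {Q : Matrix m m ℂ} (hQ : Q.det ≠ 0) {d : m → ℂ} (hd : ∀ k, d k ≠ 0) :
    ∃ x : GL m ℂ, x.1 = Q * diagonal d * Q⁻¹ := by
  refine ⟨GeneralLinearGroup.mkOfDetNeZero _ ?_, rfl⟩
  rw [det_conj ((isUnit_iff_isUnit_det _).2 hQ.isUnit), det_diagonal]
  exact Finset.prod_ne_zero_iff.2 fun k _ => hd k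

theorem low_mul {Q : Matrix m m ℂ} (hQ : Q.det ≠ 0) {G : Subgroup (GL m ℂ)} {d d' : m → ℂ}
    (h : ∃ x ∈ G, x.1 = Q * diagonal d * Q⁻¹) (h' : ∃ x ∈ G, x.1 = Q * diagonal d' * Q⁻¹) :
    ∃ x ∈ G, x.1 = Q * diagonal (d * d') * Q⁻¹ := by
  obtain ⟨x, hx, e⟩ := h
  obtain ⟨y, hy, e'⟩ := h'
  refine ⟨x * y, G.mul_mem hx hy, ?_⟩
  rw [Units.val_mul, e, e']
  simp only [Matrix.mul_assoc, Matrix.nonsing_inv_mul_cancel_left _ _ hQ.isUnit]
  rw [← Matrix.mul_assoc (diagonal d), diagonal_mul_diagonal]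
  rfl

omit [Fintype m] [DecidableEq m] in
theorem low_ae (Y : Matrix m m E) (ψ : E →+* ℂ) (p : MvPolynomial (m × m) ℚ) :
    aeval (fun q : m × m => Y.map ψ q.1 q.2) p = ψ (aeval (fun q : m × m => Y q.1 q.2) p) :=
  (comp_aeval_apply (fun q : m × m => Y q.1 q.2) ψ.toRatAlgHom p).symm

/-- Let `G` be defined by the ideal `I`.  `tr` with `κ = Unit` and `ch_circ'` moves `hh 1 x` to
`x = b₀ a`; `aeval` at `Y.map b₀` is `b₀` of `aeval` at `Y`, so all `Y.map ψ` lie in `G`; take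
the product over `ψ` and multiply by `hh c 1`. -/
theorem Dt.low (D : Dt h b₀) (p : ℚˣ × Eˣ) (x : GL m ℂ) (hx : ent x = Dm D.Q D.u (pt p)) :
    x ∈ MT h := by
  refine Subgroup.mem_sInf.2 fun G ⟨⟨I, hI⟩, hG⟩ => ?_
  have h1 : ∀ (t : ℝ) (z : ℂ), t ≠ 0 → ‖z‖ = 1 → ∃ y ∈ G, y.1 = D.Q * diagonal
      (fun k => (t : ℂ) ^ D.u k none * z ^ D.u k (some b₀)) * D.Q⁻¹ := fun t z ht hz => by
    have hz0 : z ≠ 0 := by rintro rfl; simp at hz
    have ht0 : (t : ℂ) ≠ 0 := ofReal_ne_zero.2 ht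
    obtain ⟨y, hy⟩ := low_gl D.det (d := fun k => (t : ℂ) ^ D.u k none * z ^ D.u k (some b₀))
      fun k => mul_ne_zero (zpow_ne_zero _ ht0) (zpow_ne_zero _ hz0)
    exact ⟨y, hG _ (mul_ne_zero (pow_ne_zero 2 ht0) hz0) y
      (hy.trans (low_eq D.det (D.hh t z ht hz)).symm), hy⟩
  obtain ⟨Y, hY⟩ := D.hY p.2 p.2.ne_zero
  have hne : ∀ ψ : E →+* ℂ, ψ p.2 ≠ 0 := fun ψ => (map_ne_zero ψ).2 p.2.ne_zero
  have h2 : ∀ ψ : E →+* ℂ, ∃ y ∈ G, y.1 = D.Q * diagonal
      (fun k => ψ p.2 ^ D.u k (some ψ)) * D.Q⁻¹ := fun ψ => by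
    obtain ⟨y, hy⟩ := low_gl D.det (d := fun k => ψ p.2 ^ D.u k (some ψ))
      fun k => zpow_ne_zero _ (hne ψ)
    refine ⟨y, (hI y).2 fun f hf => ?_, hy⟩
    have e : ent y = fun q : m × m => Y.map ψ q.1 q.2 := by
      funext q; rw [low_eq D.det (hY ψ), ← hy]; rfl
    have := tr D.al (fun k (_ : Unit) => D.u k (some b₀)) (t := fun (z : {x : ℂ // ‖x‖ = 1}) _ => z.1)
      (fun z _ h0 => by simpa [h0] using z.2) ch_circ' (p := f) (fun z => by
        obtain ⟨w, hw, e⟩ := h1 1 z.1 one_ne_zero z.2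
        rw [← (hI w).1 hw f hf]
        congr 2
        funext q
        simp [Dm, ent, mon, e]) (t' := fun _ => b₀ p.2) fun _ => hne b₀
    have e0 : Dm D.Q (fun k (_ : Unit) => D.u k (some b₀)) (fun _ => b₀ p.2) =
        fun q : m × m => Y.map b₀ q.1 q.2 := by
      funext q; rw [low_eq D.det (hY b₀)]; simp only [Dm, mon, Finset.univ_unique, PUnit.default_eq_unit, Finset.prod_const, Finset.card_singleton, pow_one]
    rw [e0, low_ae, map_eq_zero] at this
    rw [e, low_ae, this, map_zero]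
  obtain ⟨y, hy, e⟩ := low_mul D.det (h1 (p.1 : ℚ) 1 (by simp) norm_one)
    (Finset.prod_induction (fun (ψ : E →+* ℂ) k => ψ p.2 ^ D.u k (some ψ))
      (fun d => ∃ y ∈ G, y.1 = D.Q * diagonal d * D.Q⁻¹) (fun _ _ => low_mul D.det)
      ⟨1, G.one_mem, by simp [Matrix.mul_nonsing_inv _ D.det.isUnit]⟩
      (s := Finset.univ) fun ψ _ => h2 ψ)
  convert hy
  ext i j
  rw [e]
  refine (congrFun hx (i, j)).trans
    (congrArg (fun d => (D.Q * diagonal d * D.Q⁻¹ : Matrix m m ℂ) i j) (funext fun k => ?_))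
  simp [mon, pt, Fintype.prod_option]

theorem dim_hom {Q : Matrix m m ℂ} (hQ : Q.det ≠ 0) (u : m → Option (E →+* ℂ) → ℤ) :
    ∃ φ : ℚˣ × Eˣ →* GL m ℂ, ∀ p, ent (φ p) = Dm Q u (pt p) := by
  have hu : IsUnit Q.det := hQ.isUnit
  let f : ℚˣ × Eˣ →* Matrix m m ℂ :=
    { toFun := fun p => Q * diagonal (fun k => mon (pt p) (u k)) * Q⁻¹
      map_one' := by
        have : ∀ o, pt (1 : ℚˣ × Eˣ) o = 1 := fun o => by cases o <;> simp [pt]
        simp [mon, this, Q.mul_nonsing_inv hu]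
      map_mul' := fun p p' => by
        have : ∀ o, pt (p * p') o = pt p o * pt p' o := fun o => by cases o <;> simp only [pt, Prod.fst_mul, Units.val_mul, Rat.cast_mul, Prod.snd_mul, map_mul, Option.elim_none, Option.elim_some]
        simp only [mon, this, mul_zpow, Finset.prod_mul_distrib, ← diagonal_mul_diagonal,
          Matrix.mul_assoc, Q.nonsing_inv_mul_cancel_left _ hu] }
  exact ⟨f.toHomUnits, fun p => rfl⟩

theorem dim_pt (D : Dt h b₀) {z : ℂ} (hz : z ≠ 0) : ∃ t : Option (E →+* ℂ) → ℂ, (∀ o, t o ≠ 0) ∧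
    ∀ q : m × m, (h z).map ofReal q.1 q.2 = Dm D.Q D.u t q := by
  classical
  have h0 : 0 < ‖z‖ := norm_pos_iff.2 hz
  have h1 : (‖z‖ : ℂ) ≠ 0 := ofReal_ne_zero.2 h0.ne'
  have h2 : √‖z‖ ≠ 0 := (Real.sqrt_pos.2 h0).ne'
  have h3 : ((√‖z‖ : ℝ) : ℂ) ^ 2 * (z / ‖z‖) = z := by
    rw [← ofReal_pow, Real.sq_sqrt h0.le, mul_div_cancel₀ _ h1]
  have h4 := D.hh (√‖z‖) (z / ‖z‖) h2 (by simp [h0.ne'])
  rw [h3] at h4
  refine ⟨fun o => o.elim (√‖z‖ : ℝ) fun ψ => if ψ = b₀ then z / ‖z‖ else 1, fun o => ?_,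
    fun q => ?_⟩
  · cases o with
    | none => exact ofReal_ne_zero.2 h2
    | some ψ =>
      simp only [Option.elim]
      split_ifs
      · exact div_ne_zero hz h1
      · exact one_ne_zero
  · rw [← D.Q.mul_nonsing_inv_cancel_right ((h z).map ofReal) D.det.isUnit, h4, Dm]
    simp [mon, Fintype.prod_option]

/-- The points `Dm D.Q D.u (pt p)` form a group `Γ ≤ MT h`; its closure (`grp`) contains all
`Dm D.Q D.u t` (`tr`, `ch_E`), so it contains `MT h`; the vanishing ideal is that of a generic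
point (`exists_gen`, `tr` with `ι = Unit`); `kd`, `crk_Dm`. -/
theorem Dt.dim [IsGalois ℚ E] (D : Dt h b₀) :
    gdim (MT h) = (finrank ℚ (Submodule.span ℚ (cst '' Set.range D.u)) : ℕ) := by
  obtain ⟨φ, hφ⟩ := dim_hom D.det D.u
  obtain ⟨G, hG⟩ := grp φ.range (by
    rintro _ ⟨p, rfl⟩ q
    rw [hφ]
    exact D.rat p q)
  have K : ∀ t : Option (E →+* ℂ) → ℂ, (∀ o, t o ≠ 0) →
      Dm D.Q D.u t ∈ zeroLocus ℂ (vanishingIdeal ℚ (ent '' φ.range)) := fun t ht p hp =>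
    tr D.al D.u pt_ne ch_E (fun i => hp _ ⟨φ i, ⟨i, rfl⟩, hφ i⟩) ht
  have hle : MT h ≤ G := sInf_le ⟨⟨_, hG⟩, fun z hz x hx => by
    obtain ⟨t, ht, e⟩ := dim_pt D hz
    have : ent x = Dm D.Q D.u t := funext fun q => by rw [← e, ← hx]; rfl
    rw [hG, this]
    exact K t ht⟩
  obtain ⟨t, ht, hl, hr⟩ := exists_gen (Option (E →+* ℂ))
  have hI : vanishingIdeal ℚ (ent '' MT h) = vanishingIdeal ℚ {Dm D.Q D.u t} := by
    ext p
    rw [mem_vanishingIdeal_singleton_iff]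
    refine ⟨fun hp => K t ht p ?_, ?_⟩
    · rintro _ ⟨_, ⟨i, rfl⟩, rfl⟩
      exact hp _ ⟨_, D.low i _ (hφ i), rfl⟩
    · rintro hp _ ⟨x, hx, rfl⟩
      refine (hG x).1 (hle hx) p ?_
      rintro _ ⟨_, ⟨i, rfl⟩, rfl⟩
      rw [hφ]
      exact tr (t := fun _ : Unit => t) D.al D.u (fun _ => ht)
        (LinearIndependent.of_comp (LinearMap.proj ()) hl) (fun _ => hp) (pt_ne i)
  obtain ⟨d, h1, h2⟩ := kd (Dm D.Q D.u t)
  rw [crk_Dm D.det D.al D.u ht, hr] at h2
  rw [gdim, hI, h1, Nat.cast_injective h2]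

/-! ### Block DER -/

omit [DecidableEq m] in
theorem der_poly [Finite ι] (c : ι → m → ℤ) :
    ∃ L : Polynomial ℚ, ∀ i k, L.eval ((2 : ℚ) ^ c i k) = c i k := by
  obtain ⟨s, hs⟩ := (Set.finite_range fun p : ι × m => c p.1 p.2).exists_finset_coe
  refine ⟨Lagrange.interpolate s (fun n => (2 : ℚ) ^ n) fun n => n, fun i k => ?_⟩
  exact Lagrange.eval_interpolate_at_node _
    (zpow_right_injective₀ (by norm_num) (by norm_num)).injOn
    (Finset.mem_coe.1 (hs ▸ ⟨(i, k), rfl⟩))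

theorem der_aeval {Z Q : Matrix m m ℂ} {f : m → ℂ} (hZ : Z * Q = Q * diagonal f)
    (p : Polynomial ℚ) :
    Polynomial.aeval Z p * Q = Q * diagonal fun k => Polynomial.aeval (f k) p := by
  induction p using Polynomial.induction_on with
  | C a =>
    ext i j
    simp [Algebra.algebraMap_eq_smul_one, mul_diagonal, Rat.smul_def, mul_comm]
  | add p q hp hq => simp only [map_add, add_mul, hp, hq, ← mul_add, diagonal_add]
  | monomial n a ih =>
    simp only [pow_succ, ← mul_assoc, map_mul _ _ Polynomial.X, Polynomial.aeval_X]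
    rw [mul_assoc, hZ, ← mul_assoc, ih, mul_assoc, diagonal_mul_diagonal]

theorem der_log [Finite ι] {K : Type} [Field K] [CharZero K] (φ : ι → K →+* ℂ) {Q : Matrix m m ℂ}
    {Y : Matrix m m K} {c : ι → m → ℤ}
    (hY : ∀ i, Y.map (φ i) * Q = Q * diagonal fun k => φ i 2 ^ c i k) :
    ∃ X : Matrix m m K, ∀ i, X.map (φ i) * Q = Q * diagonal fun k => (c i k : ℂ) := by
  obtain ⟨L, hL⟩ := der_poly c
  refine ⟨Polynomial.aeval Y L, fun i => ?_⟩
  have e : (Polynomial.aeval Y L).map (φ i) = Polynomial.aeval (Y.map (φ i)) L :=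
    (Polynomial.aeval_algHom_apply (φ i).toRatAlgHom.mapMatrix Y L).symm
  rw [e, der_aeval (hY i)]
  refine congrArg (Q * diagonal ·) (funext fun k => ?_)
  have e2 : φ i 2 ^ c i k = algebraMap ℚ ℂ (2 ^ c i k) := by simp [map_ofNat]
  rw [e2, Polynomial.aeval_algebraMap_apply_eq_algebraMap_eval, hL]
  simp

/-- Lagrange interpolation: `x = L (Y)` for `a = 2` and `L (2 ^ n) = n` on the finitely many
exponents; the same for `W`.  `rankm_conj`, `lin_span`. -/
theorem Dt.lie (D : Dt h b₀) : ∃ (a : m × m → ℚ) (x : m × m → E),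
    (∀ q : m × m, ((deriv (fun θ : ℝ => h (exp (θ * I)) q.1 q.2) 0 : ℝ) : ℂ) = I * b₀ (x q)) ∧
    bc (Submodule.span ℚ (cst '' Set.range D.u)) =
      Submodule.span ℂ (Set.range fun q => zz (a q, x q)) ∧
    ((∀ q, a q = 0) ↔ ∀ k, D.u k none = 0) := by
  obtain ⟨Y, hY⟩ := D.hY 2 two_ne_zero
  obtain ⟨W, hW⟩ := D.hW 2 two_ne_zero
  obtain ⟨X, hX⟩ := der_log (fun ψ : E →+* ℂ => ψ) hY
  obtain ⟨A, hA⟩ := der_log (fun _ : Unit => Rat.castHom ℂ) (c := fun _ k => D.u k none)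
    fun _ => hW
  have hu := D.det.isUnit
  obtain ⟨Z, hZ, hZ'⟩ : ∃ Z : Option (E →+* ℂ) → Matrix m m ℂ,
      (∀ o i j, Z o i j = zz (A i j, X i j) o) ∧
        ∀ o, Z o = D.Q * diagonal (fun k => (D.u k o : ℂ)) * D.Q⁻¹ := by
    refine ⟨fun o => of fun i j => zz (A i j, X i j) o, fun _ _ _ => rfl, fun o => ?_⟩
    cases o with
    | none => rw [← hA (), mul_nonsing_inv_cancel_right _ _ hu]; rfl
    | some ψ => rw [← hX ψ, mul_nonsing_inv_cancel_right _ _ hu]; rfl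
  have hd : ∀ o k, (D.Q⁻¹ * Z o * D.Q) k k = D.u k o := fun o k => by
    rw [hZ', mul_assoc, nonsing_inv_mul_cancel_right _ _ hu, nonsing_inv_mul_cancel_left _ _ hu,
      diagonal_apply_eq]
  refine ⟨fun q => A q.1 q.2, fun q => X q.1 q.2, fun q => ?_, ?_, fun h0 k => ?_, fun h0 q => ?_⟩
  · have e : ∀ θ : ℝ, ((h (exp (θ * I)) q.1 q.2 : ℝ) : ℂ) =
        ∑ k, D.Q q.1 k * exp (D.u k (some b₀) * (θ * I)) * D.Q⁻¹ k q.2 := fun θ => by
      have h2 := D.hh 1 (exp (θ * I)) one_ne_zero (norm_exp_ofReal_mul_I θ)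
      have h3 := congrFun (congrFun (mul_nonsing_inv_cancel_right _
        ((h ((1 : ℝ) ^ 2 * exp (θ * I))).map ofReal) hu) q.1) q.2
      rw [h2, mul_apply] at h3
      simpa [mul_diagonal, exp_int_mul] using h3.symm
    have h1 : HasDerivAt (fun θ : ℝ => ((h (exp (θ * I)) q.1 q.2 : ℝ) : ℂ)) (I * b₀ (X q.1 q.2))
        0 := by
      rw [funext e, ← zz_some (A q.1 q.2, X q.1 q.2), ← hZ, hZ', mul_apply, Finset.mul_sum]
      refine HasDerivAt.fun_sum fun k _ => ?_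
      refine (((((hasDerivAt_id (0 : ℝ)).ofReal_comp.mul_const I).const_mul
        (D.u k (some b₀) : ℂ)).cexp.const_mul (D.Q q.1 k)).mul_const (D.Q⁻¹ k q.2)).congr_deriv ?_
      simp [mul_diagonal]
      ring
    exact (reCLM.differentiableAt.comp (0 : ℝ) h1.differentiableAt).hasDerivAt.ofReal_comp.unique h1
  · rw [← Set.range_comp, show bc (Submodule.span ℚ (Set.range _)) = _ from lin_span _]
    refine le_antisymm (Submodule.span_le.2 ?_) (Submodule.span_le.2 ?_)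
    · rintro _ ⟨k, rfl⟩
      have := rankm_conj (L := Submodule.span ℂ (Set.range fun q : m × m =>
        zz (A q.1 q.2, X q.1 q.2))) (Z := Z)
        (fun i j => Submodule.subset_span ⟨(i, j), funext fun o => (hZ o i j).symm⟩) D.Q⁻¹ D.Q k k
      simpa [hd, cst] using this
    · rintro _ ⟨q, rfl⟩
      have := rankm_conj (L := Submodule.span ℂ (Set.range fun l j => ((cst ∘ D.u) l j : ℂ)))
        (Z := fun o => diagonal fun k => (D.u k o : ℂ)) (fun i j => by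
          by_cases hij : i = j
          · exact Submodule.subset_span ⟨i, funext fun o => by simp [hij, cst]⟩
          · simp only [diagonal_apply_ne _ hij]
            exact Submodule.zero_mem _) D.Q D.Q⁻¹ q.1 q.2
      simp only [← hZ', hZ] at this
      exact this
  · have : Z none = 0 := by
      ext i j
      rw [hZ, zz_none, show (A i j, X i j).1 = 0 from h0 (i, j)]
      simp
    simpa [this] using (hd none k).symm
  · have := hZ none q.1 q.2
    simpa [hZ', h0, zz_none] using this.symm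

/-! ### Block SEL -/

omit [Fintype κ] in
theorem sel_ind [DecidableEq (κ → ℤ)] {β : Matrix Ω m ℂ} {u : Ω → κ → ℤ}
    (hu : ∀ o, ∃ X : Matrix m m ℂ, diagonal (fun w => (2 : ℂ) ^ u w o) * β = β * X) (w' : Ω) :
    ∃ X : Matrix m m ℂ, diagonal (fun w => if u w = u w' then (1 : ℂ) else 0) * β = β * X := by
  let S : Submonoid (Ω → ℂ) :=
    { carrier := {f | ∃ X : Matrix m m ℂ, diagonal f * β = β * X}
      one_mem' := ⟨1, by rw [Matrix.mul_one]; exact Matrix.one_mul β⟩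
      mul_mem' := by
        rintro f f' ⟨X, hX⟩ ⟨X', hX'⟩
        exact ⟨X * X', by rw [← Matrix.mul_assoc, ← hX, Matrix.mul_assoc, ← hX',
          ← Matrix.mul_assoc, diagonal_mul_diagonal]; rfl⟩ }
  have key (a : Ω) : ∃ f ∈ S, (∀ w, u w = u w' → f w = 1) ∧ (u a ≠ u w' → f a = 0) := by
    by_cases h : u a = u w'
    · exact ⟨1, S.one_mem, fun _ _ => rfl, fun h' => absurd h h'⟩
    obtain ⟨o, ho⟩ := Function.ne_iff.1 h
    obtain ⟨X, hX⟩ := hu o
    have hne : (2 : ℂ) ^ u w' o - 2 ^ u a o ≠ 0 := fun e => ho <| by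
      have := congrArg norm (sub_eq_zero.1 e).symm
      rw [norm_zpow, norm_zpow, Complex.norm_two] at this
      exact zpow_right_injective₀ two_pos (by norm_num) this
    refine ⟨fun w => (2 ^ u w' o - 2 ^ u a o)⁻¹ * (2 ^ u w o - 2 ^ u a o),
      ⟨((2 : ℂ) ^ u w' o - 2 ^ u a o)⁻¹ • (X - (2 : ℂ) ^ u a o • 1), ?_⟩,
      fun w hw => by simp only [hw, inv_mul_cancel₀ hne], fun _ => by simp⟩
    rw [Matrix.mul_smul, Matrix.mul_sub, ← hX, Matrix.mul_smul, Matrix.mul_one]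
    ext i j
    simp only [diagonal_mul, Matrix.smul_apply, Matrix.sub_apply, smul_eq_mul]
    ring
  choose f hf h1 h0 using key
  have : (fun w => if u w = u w' then (1 : ℂ) else 0) = ∏ a, f a := by
    funext w
    rw [Finset.prod_apply]
    split_ifs with h
    · exact (Finset.prod_eq_one fun a _ => h1 a w h).symm
    · exact (Finset.prod_eq_zero (f := fun a => f a w) (Finset.mem_univ w) (h0 w h)).symm
  rw [this]
  exact S.prod_mem fun a _ => hf a

/-- The functions `f : Ω → ℂ` with `∃ X, diagonal f * β = β * X` form a subalgebra; by Lagrange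
interpolation it contains the indicator function of `u w = v`.  Choose a basis (`exists_sel`)
among the columns of the matrices `γ * diagonal (indicator of u w = u w') * β`. -/
theorem sel {β : Matrix Ω m ℂ} {γ : Matrix m Ω ℂ} (h1 : γ * β = 1) (hβ : Al β) (hγ : Al γ)
    {u : Ω → κ → ℤ}
    (hu : ∀ o, ∃ X : Matrix m m ℂ, diagonal (fun w => (2 : ℂ) ^ u w o) * β = β * X) :
    ∃ (Q : Matrix m m ℂ) (e : m → Ω), Q.det ≠ 0 ∧ Al Q ∧ ∀ w k, (β * Q) w k ≠ 0 → u w = u (e k) := by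
  let χ (v : κ → ℤ) : Matrix Ω Ω ℂ := diagonal fun w => if u w = v then 1 else 0
  let P (v : κ → ℤ) : Matrix m m ℂ := γ * (χ v * β : Matrix Ω m ℂ)
  have hP (w : Ω) : β * P (u w) = χ (u w) * β := by
    obtain ⟨X, hX⟩ := sel_ind hu w
    simp only [P, χ, hX]
    rw [← Matrix.mul_assoc γ, h1, Matrix.one_mul]
  have hs : ∑ v ∈ Finset.univ.image u, P v = 1 := by
    have : ∑ v ∈ Finset.univ.image u, χ v = 1 := by
      ext a b
      by_cases hab : a = b <;> simp only [χ, hab, Matrix.sum_apply, diagonal_apply_eq, Finset.sum_ite_eq, Finset.mem_image, Finset.mem_univ, true_and, exists_apply_eq_apply, ↓ reduceIte, one_apply, ne_eq, not_false_eq_true, diagonal_apply_ne, Finset.sum_const_zero]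
    simp only [P]
    rw [← Matrix.mul_sum, ← Matrix.sum_mul, this, Matrix.one_mul, h1]
  obtain ⟨t, ht⟩ := exists_sel (v := fun (p : Ω × m) j => P (u p.1) j p.2) (by
    rw [eq_top_iff, ← (Pi.basisFun ℂ m).span_eq, Submodule.span_le]
    rintro _ ⟨k, rfl⟩
    have : Pi.basisFun ℂ m k = ∑ v ∈ Finset.univ.image u, fun j => P v j k := by
      funext j
      rw [Finset.sum_apply, ← Matrix.sum_apply, hs]
      simp [one_apply, Pi.single_apply]
    rw [this]
    refine Submodule.sum_mem _ fun v hv => ?_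
    obtain ⟨w, -, rfl⟩ := Finset.mem_image.1 hv
    exact Submodule.subset_span ⟨(w, k), rfl⟩)
  refine ⟨_, fun k => (t k).1, ht, fun j k => ?_, fun w k hw => ?_⟩
  · refine (hγ.mul (Al.mul (fun a b => ?_) hβ)) j (t k).2
    simp only [χ, diagonal_apply]
    split_ifs <;> first | exact isAlgebraic_one | exact isAlgebraic_zero
  · by_contra hn
    refine hw ((congrFun (congrFun (hP (t k).1) w) (t k).2).trans ?_)
    simp [χ, hn]

/-! ### Block PRE -/

/-- The character of the eigenvector `w`. -/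
def uu (r : Fin s → ℕ) (k : Fin s → ℤ) (ε : n → Option (E →+* ℂ) → ℤ) (w : Σ i, Fin (r i) → n) :
    Option (E →+* ℂ) → ℤ := ∑ a, ε (w.2 a) - k w.1 • (4 : ℤ) • e₀

/-- The basis in the coordinates given by the eigenvectors. -/
noncomputable def bt (r : Fin s → ℕ) (k : Fin s → ℤ) (V : Matrix n n ℂ)
    (B : Matrix (Σ i, Fin (r i) → n) m ℚ) : Matrix (Σ i, Fin (r i) → n) m ℂ :=
  tc r k 1 V⁻¹ * B.map (Rat.cast : ℚ → ℂ)

theorem pre_zs {α : Type} (S : Finset α) (v : α → ℤ) {x : ℂ} (hx : x ≠ 0) :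
    x ^ ∑ a ∈ S, v a = ∏ a ∈ S, x ^ v a :=
  Finset.cons_induction_on S (by simp) fun a S h ih => by
    rw [Finset.sum_cons, Finset.prod_cons, zpow_add₀ hx, ih]

theorem pre_re (A : AbVar g N) (c : ℝ) : hz A ((c : ℂ) ^ 2 * 1) = diagonal fun _ => c ^ 2 := by
  rw [hz_eq, mul_one, ← ofReal_pow, ofReal_re, ofReal_im, zero_smul, add_zero, smul_one_eq_diagonal]

omit [NumberField E] in
/-- `hz_V`, `tc_mul`, `tc_diag`, `tc_map`, `M.act`. -/
theorem pre_h {A : AbVar g N} (M : Mot A s d) {V : Matrix (Fin (2 * g)) (Fin (2 * g)) ℂ}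
    (hV : V.det ≠ 0) {ε : Fin (2 * g) → Option (E →+* ℂ) → ℤ} (h0 : ∀ k, ε k none = 2)
    (h1 : ∀ k, ε k (some b₀) = 1 ∨ ε k (some b₀) = -1)
    (hJ : A.J.map ofReal * V = V * diagonal fun k => I * (ε k (some b₀) : ℂ)) (t : ℝ) (x : ℂ)
    (ht : t ≠ 0) (hx : ‖x‖ = 1) :
    diagonal (fun w => (t : ℂ) ^ uu M.r M.k ε w none * x ^ uu M.r M.k ε w (some b₀)) *
      bt M.r M.k V M.B = bt M.r M.k V M.B * (M.h (t ^ 2 * x)).map ofReal := by
  have ht' : (t : ℂ) ≠ 0 := ofReal_ne_zero.2 ht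
  have hx' : x ≠ 0 := by rintro rfl; simp at hx
  have hU : IsUnit V.det := hV.isUnit
  have h2 := congrArg (fun X => X.map ofRealHom) (M.act _ (mul_ne_zero (pow_ne_zero 2 ht') hx'))
  have hB : (M.B.map (Rat.cast : ℚ → ℝ)).map ofRealHom = M.B.map (Rat.cast : ℚ → ℂ) := by
    ext; simp
  simp only [Matrix.map_mul, tc_map, hB] at h2
  have h3 : V⁻¹ * (hz A (t ^ 2 * x)).map ofRealHom =
      (diagonal fun k => (t : ℂ) ^ 2 * x ^ ε k (some b₀)) * V⁻¹ := by
    rw [← nonsing_inv_mul_cancel_left V (diagonal _) hU, ← hz_V A h1 hJ t hx, Matrix.mul_assoc,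
      mul_nonsing_inv_cancel_right V _ hU]
    rfl
  refine Eq.trans ?_ (((Matrix.mul_assoc _ _ _).trans (congrArg (_ * ·) h2.symm)).symm)
  rw [bt, ← Matrix.mul_assoc, ← Matrix.mul_assoc, tc_mul, h3, mul_comm (1 : ℂ), ← tc_mul, tc_diag]
  congr 3
  ext w
  have hn : ofRealHom (normSq ((t : ℂ) ^ 2 * x))⁻¹ = (t : ℂ) ^ (-4 : ℤ) := by
    rw [map_mul, map_pow, normSq_ofReal, normSq_eq_norm_sq, hx]
    simp [_root_.zpow_neg]
    ring
  rw [hn, ← _root_.zpow_mul, Finset.prod_mul_distrib, ← pre_zs _ _ hx', ← mul_assoc, ← zpow_ofNat,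
    ← pre_zs _ _ ht', ← zpow_add₀ ht']
  simp only [uu, Pi.sub_apply, Finset.sum_apply, h0, Pi.smul_apply, e₀, Option.elim, smul_eq_mul]
  congr 2 <;> ring

omit [Fintype n] in
omit [NumberField E] in
theorem pry_diag (r : Fin s → ℕ) (k : Fin s → ℤ) (ε : n → Option (E →+* ℂ) → ℤ) (ψ : E →+* ℂ)
    {x : ℂ} (hx : x ≠ 0) : tc r k 1 (diagonal fun j => x ^ ε j (some ψ)) =
      diagonal fun w => x ^ uu r k ε w (some ψ) := by
  rw [tc_diag]
  refine congrArg diagonal (funext fun w => ?_)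
  have h : uu r k ε w (some ψ) = ∑ a, ε (w.2 a) (some ψ) := by
    simp only [uu, zsmul_eq_mul, Int.cast_ofNat, Pi.sub_apply, Finset.sum_apply, Pi.mul_apply, Pi.intCast_apply, Int.cast_eq, Pi.ofNat_apply, e₀, Option.elim_some, mul_zero, sub_zero]
  rw [h, _root_.one_zpow, one_mul]
  induction (Finset.univ : Finset (Fin (r w.1))) using Finset.induction_on with
  | empty => simp
  | insert a S ha ih => rw [Finset.prod_insert ha, Finset.sum_insert ha, zpow_add₀ hx, ih]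

theorem pry_one {V : Matrix n n ℂ} {ε : n → Option (E →+* ℂ) → ℤ}
    (h1 : ∀ j ψ, ε j (some ψ) = 1 ∨ ε j (some ψ) = -1) {μ : Matrix n n E}
    (hμ : ∀ ψ : E →+* ℂ, μ.map ψ * V = V * diagonal fun j => (ε j (some ψ) : ℂ)) (a : E) :
    ∃ Y : Matrix n n E, ∀ ψ : E →+* ℂ,
      Y.map ψ * V = V * diagonal fun j => ψ a ^ ε j (some ψ) := by
  refine ⟨((a + a⁻¹) / 2) • (1 : Matrix n n E) + ((a - a⁻¹) / 2) • μ, fun ψ => ?_⟩
  have h : (((a + a⁻¹) / 2) • (1 : Matrix n n E) + ((a - a⁻¹) / 2) • μ).map ψ =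
      ((ψ a + (ψ a)⁻¹) / 2) • (1 : Matrix n n ℂ) + ((ψ a - (ψ a)⁻¹) / 2) • μ.map ψ := by
    ext i j
    by_cases hij : i = j <;> simp only [hij, map_apply, Matrix.add_apply, Matrix.smul_apply, one_apply_eq, smul_eq_mul, mul_one, map_add, map_div₀, map_inv₀, map_ofNat, map_mul, map_sub, ne_eq, not_false_eq_true, one_apply_ne, mul_zero, zero_add]
  rw [h, Matrix.add_mul, Matrix.smul_mul, Matrix.smul_mul, hμ, Matrix.one_mul]
  ext i j
  simp only [Matrix.add_apply, Matrix.smul_apply, Matrix.mul_diagonal, smul_eq_mul]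
  rcases h1 j ψ with h | h <;> rw [h] <;> simp <;> ring

/-- `Y₁ = ((a + a⁻¹) / 2) • 1 + ((a - a⁻¹) / 2) • μ`, `Y = B' * tc 1 Y₁ * B`.  The matrix
`(1 - B * B') * tc 1 Y₁ * B` over `E` vanishes under `b₀` by `li_sum`, `ch_circ` and `hx`. -/
theorem pre_Y {r : Fin s → ℕ} {k : Fin s → ℤ} {B : Matrix (Σ i, Fin (r i) → n) m ℚ}
    (hB : Function.Injective B.mulVec) {V : Matrix n n ℂ} (hV : V.det ≠ 0)
    {ε : n → Option (E →+* ℂ) → ℤ} (h1 : ∀ j ψ, ε j (some ψ) = 1 ∨ ε j (some ψ) = -1)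
    {μ : Matrix n n E} (hμ : ∀ ψ : E →+* ℂ, μ.map ψ * V = V * diagonal fun j => (ε j (some ψ) : ℂ))
    (hx : ∀ x : ℂ, ‖x‖ = 1 → ∃ X : Matrix m m ℂ,
      diagonal (fun w => x ^ uu r k ε w (some b₀)) * bt r k V B = bt r k V B * X) (a : E)
    (ha : a ≠ 0) : ∃ Y : Matrix m m E, ∀ ψ : E →+* ℂ,
      diagonal (fun w => ψ a ^ uu r k ε w (some ψ)) * bt r k V B = bt r k V B * Y.map ψ := by
  obtain ⟨B', hB'⟩ := exists_left hB
  obtain ⟨Y₁, hY₁⟩ := pry_one h1 hμ a
  have hu : IsUnit V.det := Ne.isUnit hV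
  have hTV : tc r k 1 V * tc r k 1 V⁻¹ = 1 := by
    rw [tc_mul, mul_one, Matrix.mul_nonsing_inv V hu, tc_one]
  have hVT : tc r k 1 V⁻¹ * tc r k 1 V = 1 := by
    rw [tc_mul, mul_one, Matrix.nonsing_inv_mul V hu, tc_one]
  have hβ : tc r k 1 V * bt r k V B = B.map (Rat.cast : ℚ → ℂ) := by
    rw [bt, ← Matrix.mul_assoc, hTV, Matrix.one_mul]
  have hBB : B'.map (Rat.cast : ℚ → ℂ) * B.map (Rat.cast : ℚ → ℂ) = 1 := by
    have h := congrArg (fun X : Matrix m m ℚ => X.map (Rat.castHom ℂ)) hB'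
    simp only [Matrix.map_mul, Matrix.map_one _ (map_zero _) (map_one _)] at h
    exact h
  have hc : ∀ (ψ : E →+* ℂ) (q : ℚ), ψ (q : E) = q := fun ψ q => map_ratCast ψ q
  have hBψ : ∀ ψ : E →+* ℂ, (B.map (Rat.cast : ℚ → E)).map ψ = B.map (Rat.cast : ℚ → ℂ) :=
    fun ψ => by ext i j; exact hc ψ _
  have hBψ' : ∀ ψ : E →+* ℂ, (B'.map (Rat.cast : ℚ → E)).map ψ = B'.map (Rat.cast : ℚ → ℂ) :=
    fun ψ => by ext i j; exact hc ψ _
  have hT : ∀ ψ : E →+* ℂ, (tc r k 1 Y₁ * B.map (Rat.cast : ℚ → E)).map ψ =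
      tc r k 1 V * (diagonal (fun w => ψ a ^ uu r k ε w (some ψ)) * bt r k V B) := by
    intro ψ
    have h0 : ψ a ≠ 0 := (map_ne_zero ψ).2 ha
    rw [Matrix.map_mul, hBψ, tc_map, map_one, ← pry_diag r k ε ψ h0, ← Matrix.mul_assoc, tc_mul,
      ← hY₁, ← hβ, ← Matrix.mul_assoc, tc_mul]
  obtain ⟨P, hP⟩ : ∃ P : Matrix (Σ i, Fin (r i) → n) (Σ i, Fin (r i) → n) ℂ,
      P = tc r k 1 V - B.map (Rat.cast : ℚ → ℂ) * (B'.map (Rat.cast : ℚ → ℂ) * tc r k 1 V) :=
    ⟨_, rfl⟩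
  have hPβ : P * bt r k V B = 0 := by
    rw [hP, Matrix.sub_mul, Matrix.mul_assoc, Matrix.mul_assoc, hβ, hBB, Matrix.mul_one, sub_self]
  have hent : ∀ (f : (Σ i, Fin (r i) → n) → ℂ) p q, (P * (diagonal f * bt r k V B) :
      Matrix (Σ i, Fin (r i) → n) m ℂ) p q = ∑ w, P p w * bt r k V B w q * f w := by
    intro f p q
    rw [Matrix.mul_apply]
    refine Finset.sum_congr rfl fun w _ => ?_
    rw [Matrix.diagonal_mul]
    ring
  have hZ : P * (diagonal (fun w => b₀ a ^ uu r k ε w (some b₀)) * bt r k V B) = 0 := by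
    ext p q
    rw [hent]
    refine li_sum ch_circ (c := fun w => uu r k ε w (some b₀)) (fun x => ?_) fun v => b₀ a ^ v
    obtain ⟨X, hX⟩ := hx x.1 x.2
    rw [← hent, hX, ← Matrix.mul_assoc, hPβ, Matrix.zero_mul]
    rfl
  obtain ⟨Y, hY⟩ : ∃ Y : Matrix m m E,
      Y = B'.map (Rat.cast : ℚ → E) * (tc r k 1 Y₁ * B.map (Rat.cast : ℚ → E)) := ⟨_, rfl⟩
  have hE : tc r k 1 Y₁ * B.map (Rat.cast : ℚ → E) = B.map (Rat.cast : ℚ → E) * Y := by
    apply Matrix.map_injective b₀.injective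
    rw [hP, Matrix.sub_mul, sub_eq_zero, Matrix.mul_assoc, Matrix.mul_assoc, ← hT] at hZ
    show (tc r k 1 Y₁ * B.map (Rat.cast : ℚ → E)).map b₀ = (B.map (Rat.cast : ℚ → E) * Y).map b₀
    rw [hZ, hY, Matrix.map_mul (L := B.map (Rat.cast : ℚ → E)), hBψ,
      Matrix.map_mul (L := B'.map (Rat.cast : ℚ → E)), hBψ']
  refine ⟨Y, fun ψ => ?_⟩
  have h := hT ψ
  rw [hE, Matrix.map_mul, hBψ] at h
  calc diagonal (fun w => ψ a ^ uu r k ε w (some ψ)) * bt r k V B
      = tc r k 1 V⁻¹ * (tc r k 1 V *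
        (diagonal (fun w => ψ a ^ uu r k ε w (some ψ)) * bt r k V B)) := by
        rw [← Matrix.mul_assoc, hVT, Matrix.one_mul]
    _ = bt r k V B * Y.map ψ := by rw [← h, ← Matrix.mul_assoc, bt]

/-- `hz A (c ^ 2) = c ^ 2 • 1`; `M.h (c ^ 2) = B' * tc _ _ * B`. -/
theorem pre_W {A : AbVar g N} (M : Mot A s d) (c : ℚ) (hc : c ≠ 0) :
    ∃ W : Matrix (Fin d) (Fin d) ℚ, M.h ((c : ℝ) ^ 2 * 1) = W.map Rat.cast := by
  obtain ⟨B', hB⟩ := exists_left M.inj
  have h2 := M.act (((c : ℝ) : ℂ) ^ 2 * 1) (by simpa using hc)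
  have h3 : tc M.r M.k (normSq (((c : ℝ) : ℂ) ^ 2 * 1))⁻¹ (hz A (((c : ℝ) : ℂ) ^ 2 * 1)) =
      (tc M.r M.k (c ^ 4)⁻¹ (diagonal fun _ => c ^ 2)).map (Rat.castHom ℝ) := by
    rw [tc_map, pre_re, diagonal_map (map_zero _), mul_one, map_pow, normSq_ofReal]
    congr 1
    · simp; ring
    · simp
  refine ⟨(B' * tc M.r M.k (c ^ 4)⁻¹ (diagonal fun _ : Fin (2 * g) => c ^ 2) :
    Matrix (Fin d) (Σ i, Fin (M.r i) → Fin (2 * g)) ℚ) * M.B, ?_⟩
  have h4 := congrArg (fun X => X.map (Rat.castHom ℝ)) hB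
  simp only [Matrix.map_mul, Matrix.map_one _ (map_zero _) (map_one _)] at h4
  refine Eq.trans ?_ (Matrix.map_mul (f := Rat.castHom ℝ)).symm
  rw [Matrix.map_mul, ← h3, Matrix.mul_assoc, Rat.coe_castHom, h2, ← Matrix.mul_assoc]
  exact (Matrix.one_mul _).symm.trans (congrArg (· * _) h4.symm)

/-- `M.act` at `z = 4`: `tc` is the diagonal matrix with entries `4 ^ (r - 2 k)`. -/
theorem pre_wt {A : AbVar g N} (M : Mot A s d) (h : M.h ((2 : ℝ) ^ 2 * 1) = 1) (x j)
    (hx : M.B x j ≠ 0) : (M.r x.1 : ℤ) = 2 * M.k x.1 := by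
  have h2 := congrFun (congrFun (M.act (((2 : ℝ) : ℂ) ^ 2 * 1) (by simp)) x) j
  rw [h, Matrix.mul_one, pre_re, tc_diag, diagonal_mul, mul_one, map_pow, normSq_ofReal,
    map_apply, mul_eq_right₀ (Rat.cast_ne_zero.2 hx), Finset.prod_const, Finset.card_fin] at h2
  have h3 : (((2 : ℝ) * 2) ^ 2)⁻¹ = ((2 : ℝ) ^ 2) ^ (-2 : ℤ) := by norm_num
  rw [h3, ← _root_.zpow_mul, ← _root_.zpow_natCast _ (M.r _), ← zpow_add₀ (by norm_num),
    zpow_eq_one_iff_right₀ (by norm_num) (by norm_num)] at h2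
  omega

/-! ### Block PER -/

/-- The period of the eigenvector `w`. -/
noncomputable def pw (r : Fin s → ℕ) (k : Fin s → ℤ) (q : n → ℂ) (w : Σ i, Fin (r i) → n) : ℂ :=
  (2 * Real.pi * I)⁻¹ ^ k w.1 * ∏ a, q (w.2 a)

theorem per_mul {K : IntermediateField ℚ ℂ} {a b c : Type} [Fintype b] {X : Matrix a b ℂ}
    {Y : Matrix b c ℂ} (hX : Al X) (hY : ∀ i j, IsAlgebraic K (Y i j)) (i j) :
    IsAlgebraic K ((X * Y) i j) := by
  rw [Matrix.mul_apply, ← mem_algebraicClosure_iff]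
  exact sum_mem fun l _ => mem_algebraicClosure_iff.2 (((hX i l).tower_top K).mul (hY l j))

/-- Compare `trdeg_T`.  With `W = V * diagonal q` and `β = tc 1 V⁻¹ * B`: a period matrix `C`
satisfies `β * C = diagonal pw * D'` with `Al D'`; `Q * diagonal (pw ∘ e)` is a period matrix. -/
theorem per_eq {A : AbVar g N} (X : Mot A s d) {V : Matrix (Fin (2 * g)) (Fin (2 * g)) ℂ}
    {q : Fin (2 * g) → ℂ} (hV : V.det ≠ 0) (ha : Al V) (hq : ∀ k, q k ≠ 0)
    (hm : ∀ k, q k • Vᵀ k ∈ Submodule.span Qb A.dR) {Q : Matrix (Fin d) (Fin d) ℂ}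
    (hQ : Q.det ≠ 0) (hQ' : Al Q) {e : Fin d → Σ i, Fin (X.r i) → Fin (2 * g)}
    (he : ∀ w k, (bt X.r X.k V X.B * Q) w k ≠ 0 →
      IsAlgebraic ℚ (pw X.r X.k q (e k) / pw X.r X.k q w)) :
    Algebra.trdeg ℚ X.per = M.cRk (Set.range fun k => pw X.r X.k q (e k)) := by
  have hp : ∀ w, pw X.r X.k q w ≠ 0 := fun w => mul_ne_zero
    (zpow_ne_zero _ (inv_ne_zero two_pi_I_ne_zero)) (Finset.prod_ne_zero_iff.2 fun _ _ => hq _)
  have hW : IsUnit (V * diagonal q).det := by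
    rw [det_mul, det_diagonal]
    exact hV.isUnit.mul (Finset.prod_ne_zero_iff.2 fun k _ => hq k).isUnit
  have hC : ∀ P : Matrix (Fin (2 * g)) (Fin (2 * g)) ℂ, P.det ≠ 0 → (∀ i, Pᵀ i ∈ A.dR) →
      Al (P⁻¹ * (V * diagonal q)) := fun P hP hc i j => by
    convert dR_coord hP hc (hm j) i using 1
    simp only [mul_apply, diagonal_apply, mul_ite, mul_zero, Finset.sum_ite_eq', Finset.mem_univ, ↓ reduceIte, mul_comm, mulVec, dotProduct, Pi.smul_apply, transpose_apply, smul_eq_mul]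
  have h1 : tc X.r X.k (2 * Real.pi * I)⁻¹ (V * diagonal q) =
      tc X.r X.k 1 V * diagonal (pw X.r X.k q) := by
    rw [← one_mul (2 * Real.pi * I)⁻¹, ← tc_mul, tc_diag]
    rfl
  have h2 : tc X.r X.k 1 V * bt X.r X.k V X.B = X.B.map (Rat.cast : ℚ → ℂ) := by
    rw [bt, ← Matrix.mul_assoc, tc_mul, mul_nonsing_inv _ hV.isUnit, one_mul, tc_one,
      Matrix.one_mul]
  have h3 : tc X.r X.k 1 V⁻¹ * tc X.r X.k 1 V = 1 := by
    rw [tc_mul, nonsing_inv_mul _ hV.isUnit, one_mul, tc_one]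
  rw [Mot.per, trdeg_eq]
  refine le_antisymm (rk_le ?_) (rk_le ?_)
  · rintro _ ⟨P, C, D, hP, hc, -, hD, i, j, rfl⟩
    obtain ⟨B', hB⟩ := exists_left X.inj
    have h4 := (hC P hP hc).inv
    rw [Matrix.mul_inv_rev, nonsing_inv_nonsing_inv _ hP.isUnit] at h4
    have h5 := (tc_al X.r X.k h4).mul (M' := D.map (Subtype.val : Qb → ℂ))
      fun i j => mem_algebraicClosure_iff.1 (D i j).2
    have h6 : bt X.r X.k V X.B * C = diagonal (pw X.r X.k q) *
        (tc X.r X.k 1 ((V * diagonal q)⁻¹ * P) * D.map (Subtype.val : Qb → ℂ)) := by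
      rw [bt, Matrix.mul_assoc, hD, ← Matrix.one_mul (diagonal (pw X.r X.k q)), ← h3,
        Matrix.mul_assoc _ _ (diagonal (pw X.r X.k q)), ← h1, Matrix.mul_assoc,
        ← Matrix.mul_assoc (tc X.r X.k _ (V * diagonal q)), tc_mul, mul_one,
        mul_nonsing_inv_cancel_left _ _ hW]
    have h7 : C = B'.map (Rat.cast : ℚ → ℂ) * tc X.r X.k 1 V * (bt X.r X.k V X.B * C) := by
      have := congrArg (fun Y : Matrix (Fin d) (Fin d) ℚ => Y.map (Rat.castHom ℂ)) hB
      simp only [Matrix.map_mul, Matrix.map_one _ (map_zero _) (map_one _)] at this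
      rw [← Matrix.mul_assoc, Matrix.mul_assoc _ _ (bt X.r X.k V X.B), h2]
      exact (Matrix.one_mul C).symm.trans (congrArg (· * C) this.symm)
    rw [mem_cl, h7]
    refine per_mul ((al_rat B').mul (tc_al _ _ ha)) (fun w l => ?_) i j
    by_cases h0 : ∀ k, (bt X.r X.k V X.B * Q) w k = 0
    · rw [← mul_nonsing_inv_cancel_left Q C hQ.isUnit, ← Matrix.mul_assoc, Matrix.mul_apply]
      simpa only [h0, zero_mul, Finset.sum_const_zero] using isAlgebraic_zero
    · obtain ⟨k, hk⟩ := not_forall.1 h0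
      have := (mem_cl.1 (sub_cl (Set.range fun k => pw X.r X.k q (e k)) ⟨k, rfl⟩)).mul
        ((he w k hk).inv.tower_top _)
      rw [inv_div, mul_div_cancel₀ _ (hp _)] at this
      rw [h6, diagonal_mul]
      exact this.mul ((h5 w l).tower_top _)
  · rintro _ ⟨k, rfl⟩
    obtain ⟨P, hP, hc⟩ := exists_basis A
    replace hP : Pᵀ.det ≠ 0 := by rwa [det_transpose]
    have h4 : Al (bt X.r X.k V X.B * Q) := ((tc_al _ _ ha.inv).mul (al_rat _)).mul hQ'
    obtain ⟨D, hD, h5⟩ : ∃ D : Matrix (Σ i, Fin (X.r i) → Fin (2 * g)) (Fin d) ℂ, Al D ∧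
        diagonal (pw X.r X.k q) * D =
          bt X.r X.k V X.B * Q * diagonal fun k => pw X.r X.k q (e k) := by
      refine ⟨of fun w k => (bt X.r X.k V X.B * Q) w k * (pw X.r X.k q (e k) / pw X.r X.k q w),
        fun w k => ?_, ?_⟩
      · by_cases h0 : (bt X.r X.k V X.B * Q) w k = 0
        · simpa [h0] using isAlgebraic_zero
        · exact (h4 w k).mul (he w k h0)
      · ext w k
        rw [diagonal_mul, mul_diagonal, of_apply, mul_left_comm, mul_div_cancel₀ _ (hp w)]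
    have h6 := (tc_al X.r X.k (hC _ hP hc)).mul hD
    have h7 : (Q * diagonal fun k => pw X.r X.k q (e k)).det ≠ 0 := by
      rw [det_mul, det_diagonal]
      exact mul_ne_zero hQ (Finset.prod_ne_zero_iff.2 fun k _ => hp _)
    have h8 : X.B.map (Rat.cast : ℚ → ℂ) * (Q * diagonal fun k => pw X.r X.k q (e k)) =
        tc X.r X.k (2 * Real.pi * I)⁻¹ Pᵀ * (tc X.r X.k 1 (Pᵀ⁻¹ * (V * diagonal q)) * D) := by
      rw [← Matrix.mul_assoc (tc X.r X.k _ Pᵀ), tc_mul, mul_one,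
        mul_nonsing_inv_cancel_left _ _ hP.isUnit, h1, Matrix.mul_assoc, h5, ← h2]
      simp only [Matrix.mul_assoc]
    have := per_mul (K := X.per) hQ'.inv (Y := Q * diagonal fun k => pw X.r X.k q (e k))
      (fun i j => mem_cl.1 (sub_cl _ ⟨Pᵀ, _, of fun i j => ⟨_, mem_algebraicClosure_iff.2 (h6 i j)⟩,
        hP, hc, h7, h8, i, j, rfl⟩)) k k
    rw [nonsing_inv_mul_cancel_left _ _ hQ.isUnit, diagonal_apply_eq] at this
    exact mem_cl.2 this

/-! ### Block FIN -/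

variable [IsCMField E] [IsGalois ℚ E] {y : Option (E →+* ℂ) → ℂ} {f : ℕ}

omit [Fintype n] [DecidableEq n] in
theorem pw_alg (P : Pk f b₀ y) (r : Fin s → ℕ) (k : Fin s → ℤ) {q : n → ℂ}
    {ε : n → Option (E →+* ℂ) → ℤ} (hq : ∀ j, IsAlgebraic ℚ (q j ^ 4 / mon y (ε j))) (w) :
    IsAlgebraic ℚ (pw r k q w ^ 4 / mon y (uu r k ε w)) := by
  have a := mem_algebraicClosure_iff.1 (mul_mem (prod_mem fun a (_ : a ∈ Finset.univ) =>
    mem_algebraicClosure_iff.2 (hq (w.2 a)))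
    (zpow_mem (mem_algebraicClosure_iff.2 (pk_pi P)) (-k w.1)))
  rw [uu, sub_eq_add_neg, ← neg_smul, mon_add P.ne, mon_smul, mon_sum P, pw, mul_comm (_ ^ _),
    _root_.inv_zpow, ← div_eq_mul_inv]
  rw [Finset.prod_div_distrib, Finset.prod_pow, div_zpow, div_mul_div_comm,
    ← zpow_natCast (2 * _ * I), ← _root_.zpow_mul, mul_neg, _root_.zpow_neg, mul_comm _ (k w.1),
    _root_.zpow_mul, zpow_natCast, ← div_eq_mul_inv, ← div_pow] at a
  exact a

theorem pk_M (P : Pk f b₀ y) {A : AbVar g N} (T : Ev A.J E ι) (X : Mot A s d) :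
    ∃ D : Dt X.h b₀, Algebra.trdeg ℚ X.per = rk y (Submodule.span ℚ (cst '' Set.range D.u)) ∧
      ((∀ i, (X.r i : ℤ) = 2 * X.k i) → ∀ k, D.u k none = 0) := by
  obtain ⟨p, hp⟩ := T.per P.fam
  obtain ⟨t, hV⟩ := exists_sel T.top
  obtain ⟨μ, hμ, he⟩ := T.exists_m b₀
  obtain ⟨ε, hε⟩ : ∃ ε : _ → Option (E →+* ℂ) → ℤ, ∀ k, ex 2 b₀ (T.Φ (t k).1) (t k).2 = ε k :=
    ⟨_, fun _ => rfl⟩
  have ha : Al (Matrix.of fun j k => (t k).2 (T.w (t k).1 j)) := fun j k =>
    (Algebra.IsAlgebraic.isAlgebraic (R := ℚ) _).algHom (t k).2.toRatAlgHom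
  have hm : ∀ k, p (t k).1 (t k).2 • (Matrix.of fun j k => (t k).2 (T.w (t k).1 j))ᵀ k ∈
    Submodule.span Qb A.dR := fun k => (hp _).2 _
  have e2 : ∀ ψ : E →+* ℂ, μ.map ψ * (Matrix.of fun j k => (t k).2 (T.w (t k).1 j)) =
      (Matrix.of fun j k => (t k).2 (T.w (t k).1 j)) * diagonal fun k => (ε k (some ψ) : ℂ) :=
    fun ψ => by
      ext j k
      have := congrFun (he (t k).1 (t k).2 ψ) j
      rw [mul_diagonal, mul_comm _ (ε k _ : ℂ), ← hε]
      exact this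
  generalize (Matrix.of fun j k => (t k).2 (T.w (t k).1 j)) = V at hV ha hm e2
  have h0 : ∀ k, ε k none = 2 := fun k => hε k ▸ rfl
  have h1 : ∀ k ψ, ε k (some ψ) = 1 ∨ ε k (some ψ) = -1 := fun k ψ => by
    rw [← hε, ex, Option.elim_some]
    split_ifs <;> simp
  have hh := pre_h X hV h0 (fun k => h1 k b₀) (by
    rw [show A.J.map ofReal = I • μ.map b₀ from Matrix.ext hμ, Matrix.smul_mul, e2,
      ← Matrix.mul_smul, ← diagonal_smul]
    rfl)
  have hY := pre_Y (b₀ := b₀) X.inj hV h1 e2 fun x hx => ⟨_, by simpa using hh 1 x one_ne_zero hx⟩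
  obtain ⟨B', hB⟩ := exists_left X.inj
  have hγ : B'.map (Rat.cast : ℚ → ℂ) * tc X.r X.k 1 V * bt X.r X.k V X.B = 1 := by
    rw [bt, Matrix.mul_assoc, ← Matrix.mul_assoc (tc _ _ _ _), tc_mul, mul_nonsing_inv _ hV.isUnit,
      one_mul, tc_one, Matrix.one_mul]
    exact (Matrix.map_mul (f := Rat.castHom ℂ)).symm.trans (by simp [hB])
  obtain ⟨Q, e, hQ, hQ', hu⟩ := sel hγ ((tc_al _ _ ha.inv).mul (al_rat _))
    ((al_rat _).mul (tc_al _ _ ha)) (u := uu X.r X.k ε) fun o => by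
      cases o with
      | none => exact ⟨_, by simpa using hh 2 1 two_ne_zero norm_one⟩
      | some ψ =>
        obtain ⟨Y, hY⟩ := hY 2 two_ne_zero
        exact ⟨_, by simpa only [map_ofNat] using hY ψ⟩
  have key : ∀ (F : (Option (E →+* ℂ) → ℤ) → ℂ) (Z : Matrix (Fin d) (Fin d) ℂ),
      diagonal (fun w => F (uu X.r X.k ε w)) * bt X.r X.k V X.B = bt X.r X.k V X.B * Z →
        Z * Q = Q * diagonal fun k => F (uu X.r X.k ε (e k)) := fun F Z hZ => by
    have : bt X.r X.k V X.B * (Z * Q) =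
        bt X.r X.k V X.B * (Q * diagonal fun k => F (uu X.r X.k ε (e k))) := by
      rw [← Matrix.mul_assoc, ← hZ, Matrix.mul_assoc, ← Matrix.mul_assoc _ Q]
      ext w k
      rw [diagonal_mul, mul_diagonal, mul_comm]
      by_cases c : (bt X.r X.k V X.B * Q) w k = 0
      · rw [c, zero_mul, zero_mul]
      · rw [hu w k c]
    have := congrArg (B'.map (Rat.cast : ℚ → ℂ) * tc X.r X.k 1 V * ·) this
    simpa only [← Matrix.mul_assoc, hγ, Matrix.one_mul] using this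
  have hq : ∀ w, IsAlgebraic ℚ (pw X.r X.k (fun k => p (t k).1 (t k).2) w ^ 4 /
      mon y (uu X.r X.k ε w)) := pw_alg P _ _ fun j => hε j ▸ P.alg _ _ _ (hp _).1
  have hn : ∀ w, pw X.r X.k (fun k => p (t k).1 (t k).2) w ≠ 0 := fun w =>
    mul_ne_zero (zpow_ne_zero _ (inv_ne_zero two_pi_I_ne_zero))
      (Finset.prod_ne_zero_iff.2 fun _ _ => (hp _).1.ne _)
  refine ⟨⟨Q, fun k => uu X.r X.k ε (e k), hQ, hQ', fun a a0 => (hY a a0).imp fun Y h ψ =>
    key (fun v => ψ a ^ v (some ψ)) _ (h ψ), fun c c0 => (pre_W X c c0).imp fun W h => ?_,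
    fun t x t0 hx => key (fun v => (t : ℂ) ^ v none * x ^ v (some b₀)) _ (hh t x t0 hx)⟩, ?_,
    fun h k => ?_⟩
  · have := hh c 1 (Rat.cast_ne_zero.2 c0) norm_one
    rw [h] at this
    exact key (fun v => (c : ℂ) ^ v none) _ (by simpa [Matrix.map_map, Function.comp_def] using this)
  · rw [per_eq X hV ha (fun k => (hp _).1.ne _) hm hQ hQ' (e := e) fun w k c => ?_, crk_mon P.ne]
    · rintro _ ⟨k, rfl⟩
      exact ⟨_, ⟨k, rfl⟩, hq _⟩
    · rintro _ ⟨k, rfl⟩
      exact ⟨_, ⟨k, rfl⟩, hn _, hq _⟩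
    · have := (hq (e k)).mul (hq w).inv
      rw [← hu w k c, inv_div, div_mul_div_cancel₀ (b := mon y _)
        (Finset.prod_ne_zero_iff.2 fun i _ => zpow_ne_zero _ (P.ne i)), ← div_pow] at this
      exact this.of_pow four_pos
  · simp only [uu, zsmul_eq_mul, Int.cast_ofNat, Pi.sub_apply, Finset.sum_apply, h0, Finset.sum_const, Finset.card_univ, Fintype.card_fin, Int.nsmul_eq_mul, h, Pi.mul_apply, Pi.intCast_apply, Int.cast_eq, Pi.ofNat_apply, e₀, Option.elim_none, mul_one]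
    ring

theorem mot_zero (A : AbVar g N) (hA : ∀ x ∈ MT (hz A), ∀ y ∈ MT (hz A), x * y = y * x)
    (X : Mot A s d) (h0 : ∀ i, (X.r i : ℤ) = 2 * X.k i) :
    ∃ e : ℕ, gdim (MT X.h) = e ∧ Algebra.trdeg ℚ X.per = e := by
  obtain ⟨E, _, _, _, _, ι, T, f, b₀, y, P⟩ := exists_all (fun _ : Unit => A) fun _ => cm_of_mt A hA
  obtain ⟨D, h1, h2⟩ := pk_M P (T ()) X
  obtain ⟨a, x, h3, h4, h5⟩ := D.lie
  exact ⟨_, D.dim, by rw [h1, P.zero _ ((dat_of h3 h4).2.1 (h5.2 (h2 h0)))]⟩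

theorem pk_dat (P : Pk f b₀ y) {A : AbVar g N} (T : Ev A.J E ι) (X : Mot A s d)
    (h : ∃ x j, X.B x j ≠ 0 ∧ (X.r x.1 : ℤ) ≠ 2 * X.k x.1) :
    ∃ U : Submodule ℚ (Option (E →+* ℂ) → ℚ), gdim (MT X.h) = (finrank ℚ U : ℕ) ∧
      Algebra.trdeg ℚ X.per = rk y U ∧ Dat b₀ U (Submodule.span ℚ (Set.range
        fun q : Fin d × Fin d => deriv (fun θ : ℝ => X.h (exp (θ * I)) q.1 q.2) 0)) := by
  obtain ⟨D, h1, -⟩ := pk_M P T X
  obtain ⟨a, x, h3, h4, h5⟩ := D.lie
  obtain ⟨w, j, b, c⟩ := h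
  refine ⟨_, D.dim, h1, (dat_of h3 h4).2.2 (not_forall.1 fun e => c (pre_wt X ?_ w j b))⟩
  have := D.hh 2 1 two_ne_zero norm_one
  simp only [h5.1 e, zpow_zero, _root_.one_zpow, mul_one, diagonal_one] at this
  have e := congrArg (· * D.Q⁻¹) this
  simp only [mul_nonsing_inv_cancel_right _ _ D.det.isUnit, mul_nonsing_inv _ D.det.isUnit] at e
  rw [mul_one]
  exact map_injective ofReal_injective (e.trans (Matrix.map_one _ ofReal_zero ofReal_one).symm)

open Classical in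
theorem mot_all : ∃ W : Submodule ℚ ℝ, W ≠ ⊥ ∧ ∀ (g N s m : ℕ) (A : AbVar g N),
    (∀ x ∈ MT (hz A), ∀ y ∈ MT (hz A), x * y = y * x) → ∀ X : Mot A s m,
      (∃ x j, X.B x j ≠ 0 ∧ (X.r x.1 : ℤ) ≠ 2 * X.k x.1) → ∃ e : ℕ, gdim (MT X.h) = e ∧
        Algebra.trdeg ℚ X.per + (if W ≤ Submodule.span ℚ (Set.range fun q : Fin m × Fin m =>
          deriv (fun θ : ℝ => X.h (exp (θ * I)) q.1 q.2) 0) then 1 else 0) = e := by
  let B := {x : Σ p : ℕ × ℕ × ℕ × ℕ, Σ A : AbVar p.1 p.2.1, Mot A p.2.2.1 p.2.2.2 //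
    Cm x.2.1.J ∧ ∃ w j, x.2.2.B w j ≠ 0 ∧ (x.2.2.r w.1 : ℤ) ≠ 2 * x.2.2.k w.1}
  obtain ⟨W, h0, hW⟩ := exists_W (B := B) (fun x => Submodule.span ℚ (Set.range
    fun q : Fin _ × Fin _ => deriv (fun θ : ℝ => x.1.2.2.h (exp (θ * I)) q.1 q.2) 0))
    (fun x => .span_of_finite ℚ (Set.finite_range _))
    (fun x => ∀ e : ℕ, gdim (MT x.1.2.2.h) = e → Algebra.trdeg ℚ x.1.2.2.per ≠ e) fun s => by
      obtain ⟨E, _, _, _, _, ι, T, d, b₀, y, P⟩ :=
        exists_all (fun k : s => k.1.1.2.1) fun k => k.1.2.1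
      refine ⟨E, _, _, d, b₀, y, P, fun x hx => ?_⟩
      obtain ⟨U, h1, h2, h3⟩ := pk_dat P (T ⟨x, hx⟩) x.1.2.2 x.2.2
      refine ⟨U, h3, ?_⟩
      simp only [h1, h2, Ne, Nat.cast_inj, forall_eq']
      exact (rk_fin P.ne U).lt_iff_ne.symm
  refine ⟨W, h0, fun g N s m A h X a => ?_⟩
  obtain ⟨E, _, _, _, _, ι, T, d, b₀, y, P⟩ := exists_all (fun _ : Unit => A) fun _ => cm_of_mt A h
  obtain ⟨U, h1, h2, h4⟩ := pk_dat P (T ()) X a
  have b := hW ⟨⟨(g, N, s, m), A, X⟩, cm_of_mt A h, a⟩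
  simp only [h1, h2, Ne, Nat.cast_inj, forall_eq'] at b
  refine ⟨_, h1, ?_⟩
  split_ifs with c
  · have e := b.1 c
    have h5 := def_mono P.ne h4.1
    have h6 := P.one
    have h7 := rk_fin P.ne U
    rw [h2]
    norm_cast
    omega
  · rw [add_zero, h2, Nat.cast_inj]
    exact by_contra fun e => c (b.2 e)

end GPCM

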